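import Pool.Agent.H569R3.NRC.Defs

set_option autoImplicit false

open Polynomial

namespace Pool.Agent.H569R3.NRC

universe u

variable {K : Type u} [Field K] {m : ℕ}

lemma pt_smul {k : ℕ} {c : K} (hc : c ≠ 0) (v : Fin k → K) : pt (c • v) = pt v :=
  Submodule.span_singleton_smul_eq (IsUnit.mk0 c hc) v

lemma pt_eq {k : ℕ} {v w : Fin k → K} (h : pt v = pt w) : ∃ c : K, c ≠ 0 ∧ v = c • w := by
  obtain ⟨z, hz⟩ := Submodule.span_singleton_eq_span_singleton.1 h.symm
  exact ⟨z, z.ne_zero, hz.symm⟩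

lemma mem_pt {k : ℕ} (v : Fin k → K) : v ∈ pt v := Submodule.mem_span_singleton_self v

lemma exists_inj [Fintype K] (hq : m + 2 ≤ Fintype.card K) :
    ∃ a : Fin (m + 2) → K, Function.Injective a := by
  have : Fintype.card (Fin (m + 2)) ≤ Fintype.card K := by simpa using hq
  obtain ⟨f⟩ := Function.Embedding.nonempty_of_card_le this
  exact ⟨f, f.injective⟩

lemma fp_surj (a : Fin (m + 2) → K) (ha : Function.Injective a) :
    Function.Surjective (L (fp a)) := by
  refine surj_of_single fun i => ?_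
  obtain ⟨c, hc, h⟩ := F_self a ha i
  refine ⟨c, hc, ver (m + 2) (a i), ?_⟩
  rw [← h]
  funext l
  rw [L_ver _ (fun j => (fp_natDegree a j).le), fp_eval]

lemma ver_top [Fintype K] (hq : m + 2 ≤ Fintype.card K) (p : Submodule K (Fin (m + 2) → K))
    (h : ∀ t, ver (m + 2) t ∈ p) : p = ⊤ := by
  obtain ⟨a, ha⟩ := exists_inj (K := K) hq
  have hs := fp_surj a ha
  have hi : Function.Injective (L (fp a)) := LinearMap.injective_iff_surjective.2 hs
  have h1 : p.map (L (fp a)) = ⊤ := by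
    rw [eq_top_iff]
    intro v _
    have hv : v = ∑ i, v i • (Pi.single i 1 : Fin (m + 2) → K) := by
      funext l
      simp [Finset.sum_apply, Pi.single_apply]
    rw [hv]
    refine Submodule.sum_mem _ fun i _ => Submodule.smul_mem _ _ ?_
    obtain ⟨c, hc, h2⟩ := F_self a ha i
    have h3 : (Pi.single i 1 : Fin (m + 2) → K) = c⁻¹ • F a (a i) := by
      rw [h2, smul_smul, inv_mul_cancel₀ hc, one_smul]
    rw [h3]
    refine Submodule.smul_mem _ _ ⟨ver (m + 2) (a i), h _, ?_⟩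
    funext l
    rw [L_ver _ (fun j => (fp_natDegree a j).le), fp_eval]
  rw [← Submodule.comap_map_eq_of_injective hi p, h1, Submodule.comap_top]

/-- Coordinates of the inversion `t = s + 1 / u`. -/
noncomputable def mob (s : K) (i : Fin (m + 2)) : K[X] :=
  (1 + C s * X) ^ (m + 1 - (i : ℕ)) * X ^ (i : ℕ)

lemma lin_natDegree (s : K) : (1 + C s * X : K[X]).natDegree ≤ 1 := by
  refine (Polynomial.natDegree_add_le _ _).trans (max_le (by simp) ?_)
  exact (Polynomial.natDegree_C_mul_le _ _).trans Polynomial.natDegree_X_le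

lemma mob_natDegree (s : K) (i : Fin (m + 2)) : (mob s i).natDegree ≤ m + 1 := by
  refine (Polynomial.natDegree_mul_le).trans ?_
  rw [Polynomial.natDegree_X_pow]
  have h1 : ((1 + C s * X : K[X]) ^ (m + 1 - (i : ℕ))).natDegree ≤ (m + 1 - (i : ℕ)) * 1 :=
    (Polynomial.natDegree_pow_le).trans (Nat.mul_le_mul_left _ (lin_natDegree s))
  have h2 := i.2
  omega

lemma mob_coeff (s : K) (i : Fin (m + 2)) : (mob s i).coeff (m + 1) = s ^ (m + 1 - (i : ℕ)) := by
  have h2 := i.2
  have h3 : m + 1 = (m + 1 - (i : ℕ)) + (i : ℕ) := by omega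
  rw [mob]
  conv_lhs => rw [h3]
  rw [show ((1 + C s * X : K[X]) ^ (m + 1 - (i : ℕ) + (i : ℕ) - (i : ℕ))) =
    (1 + C s * X : K[X]) ^ (m + 1 - (i : ℕ)) by rw [Nat.add_sub_cancel]]
  rw [Polynomial.coeff_mul_X_pow]
  have h4 := Polynomial.coeff_pow_of_natDegree_le (lin_natDegree s) (m := m + 1 - (i : ℕ))
  rw [mul_one] at h4
  rw [h4]
  simp [Polynomial.coeff_one]

lemma mob_ver (s u : K) (hu : u ≠ 0) :
    L (mob s) (ver (m + 2) u) = u ^ (m + 1) • ver (m + 2) (s + u⁻¹) := by
  funext i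
  have h2 := i.2
  rw [L_ver _ (mob_natDegree s)]
  simp only [mob, Polynomial.eval_mul, Polynomial.eval_pow, Polynomial.eval_add,
    Polynomial.eval_one, Polynomial.eval_C, Polynomial.eval_X, Pi.smul_apply, smul_eq_mul, ver]
  have h3 : u ^ (m + 1) = u ^ (m + 1 - (i : ℕ)) * u ^ (i : ℕ) := by
    rw [← pow_add]
    congr 1
    omega
  have h4 : (1 + s * u) = u * (s + u⁻¹) := by
    field_simp
    ring
  have h5 : m + 2 - 1 - (i : ℕ) = m + 1 - (i : ℕ) := by omega
  rw [h3, h4, h5, mul_pow]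
  ring

lemma mob_ver_zero (s : K) : L (mob s) (ver (m + 2) 0) = inf (m + 2) := by
  funext i
  rw [L_ver _ (mob_natDegree s)]
  by_cases hi : (i : ℕ) = 0
  · simp [mob, inf, hi]
  · simp [mob, inf, hi]

lemma mob_inf (s : K) : L (mob s) (inf (m + 2)) = ver (m + 2) s := by
  funext i
  rw [L_inf, mob_coeff]
  rfl

lemma reparam [Fintype K] (hq : m + 2 ≤ Fintype.card K)
    (g : (Fin (m + 2) → K) ≃ₗ[K] (Fin (m + 2) → K)) (s : K) :
    ∃ g' : (Fin (m + 2) → K) ≃ₗ[K] (Fin (m + 2) → K),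
      curve g' = curve g ∧ g' (inf (m + 2)) = g (ver (m + 2) s) := by
  have hsurj : Function.Surjective (L (m := m) (mob s)) := by
    rw [← LinearMap.range_eq_top]
    refine ver_top hq _ fun t => ?_
    by_cases ht : t = s
    · subst ht
      exact ⟨_, mob_inf t⟩
    · have hts : (t - s) ≠ 0 := sub_ne_zero.2 ht
      have hu : (t - s)⁻¹ ≠ 0 := inv_ne_zero hts
      have h1 := mob_ver (m := m) s _ hu
      rw [inv_inv, add_sub_cancel] at h1
      have h2 : ver (m + 2) t = (((t - s)⁻¹) ^ (m + 1))⁻¹ • L (mob s) (ver (m + 2) (t - s)⁻¹) := by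
        rw [h1, smul_smul, inv_mul_cancel₀ (pow_ne_zero _ hu), one_smul]
      rw [h2]
      exact Submodule.smul_mem _ _ ⟨_, rfl⟩
  have hinj : Function.Injective (L (m := m) (mob s)) := LinearMap.injective_iff_surjective.2 hsurj
  let e := LinearEquiv.ofBijective (L (m := m) (mob s)) ⟨hinj, hsurj⟩
  have he : ∀ v, e v = L (mob s) v := fun v => rfl
  refine ⟨e.trans g, ?_, ?_⟩
  · ext W
    constructor
    · rintro (⟨u, rfl⟩ | rfl)
      · by_cases hu : u = 0
        · right
          rw [LinearEquiv.trans_apply, he, hu, mob_ver_zero]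
        · left
          refine ⟨s + u⁻¹, ?_⟩
          rw [LinearEquiv.trans_apply, he, mob_ver s u hu, map_smul, pt_smul (pow_ne_zero _ hu)]
      · left
        refine ⟨s, ?_⟩
        rw [LinearEquiv.trans_apply, he, mob_inf]
    · rintro (⟨t, rfl⟩ | rfl)
      · by_cases ht : t = s
        · right
          rw [LinearEquiv.trans_apply, he, mob_inf, ht]
        · left
          have hts : (t - s) ≠ 0 := sub_ne_zero.2 ht
          refine ⟨(t - s)⁻¹, ?_⟩
          rw [LinearEquiv.trans_apply, he, mob_ver s _ (inv_ne_zero hts), map_smul,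
            pt_smul (pow_ne_zero _ (inv_ne_zero hts)), inv_inv, add_sub_cancel]
      · left
        refine ⟨0, ?_⟩
        rw [LinearEquiv.trans_apply, he, mob_ver_zero]
  · rw [LinearEquiv.trans_apply, he, mob_inf]

lemma ver_eq_sum (t : K) :
    ver (m + 2) t = ∑ j : Fin (m + 2), t ^ (m + 1 - (j : ℕ)) • (Pi.single j 1 : Fin (m + 2) → K) := by
  funext l
  simp [Finset.sum_apply, Pi.single_apply, ver]

lemma inf_eq : inf (m + 2) = (Pi.single 0 1 : Fin (m + 2) → K) := by
  funext l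
  by_cases hl : l = 0
  · subst hl
    simp [inf]
  · have : (l : ℕ) ≠ 0 := fun h => hl (Fin.ext h)
    simp [inf, this, Pi.single_eq_of_ne hl]

/-- The polynomial of the `i`-th coordinate of `g (ver t)`. -/
noncomputable def Q (g : (Fin (m + 2) → K) →ₗ[K] (Fin (m + 2) → K)) (i : Fin (m + 2)) : K[X] :=
  ∑ j : Fin (m + 2), C (g (Pi.single j 1) i) * X ^ (m + 1 - (j : ℕ))

lemma Q_eval (g : (Fin (m + 2) → K) →ₗ[K] (Fin (m + 2) → K)) (i : Fin (m + 2)) (t : K) :
    (Q g i).eval t = g (ver (m + 2) t) i := by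
  rw [ver_eq_sum, map_sum, Finset.sum_apply, Q, Polynomial.eval_finsetSum]
  refine Finset.sum_congr rfl fun j _ => ?_
  rw [map_smul, Pi.smul_apply, smul_eq_mul, Polynomial.eval_mul, Polynomial.eval_C,
    Polynomial.eval_pow, Polynomial.eval_X, mul_comm]

lemma Q_coeff_gt (g : (Fin (m + 2) → K) →ₗ[K] (Fin (m + 2) → K)) (i : Fin (m + 2)) {n : ℕ}
    (hn : m + 1 < n) : (Q g i).coeff n = 0 := by
  rw [Q, Polynomial.finsetSum_coeff]
  refine Finset.sum_eq_zero fun j _ => ?_
  rw [Polynomial.coeff_C_mul_X_pow, if_neg (by omega)]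

lemma Q_coeff (g : (Fin (m + 2) → K) →ₗ[K] (Fin (m + 2) → K)) (i : Fin (m + 2)) :
    (Q g i).coeff (m + 1) = g (inf (m + 2)) i := by
  rw [Q, Polynomial.finsetSum_coeff, Finset.sum_eq_single (0 : Fin (m + 2))]
  · rw [inf_eq]
    simp
  · intro j _ hj
    have : (j : ℕ) ≠ 0 := fun h => hj (Fin.ext h)
    rw [Polynomial.coeff_C_mul_X_pow, if_neg (by omega)]
  · simp

lemma key [Fintype K] (hq : m + 2 ≤ Fintype.card K)
    (g : (Fin (m + 2) → K) ≃ₗ[K] (Fin (m + 2) → K)) (a : Fin (m + 2) → K)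
    (ha : Function.Injective a)
    (h : ∀ j, ∃ d : K, g (ver (m + 2) (a j)) = d • (Pi.single j 1 : Fin (m + 2) → K)) :
    (∀ i, g (inf (m + 2)) i ≠ 0) ∧
      ∀ t i, g (ver (m + 2) t) i = g (inf (m + 2)) i * F a t i := by
  have hQ : ∀ i, Q g.toLinearMap i = C (g (inf (m + 2)) i) * fp a i := by
    intro i
    rw [← sub_eq_zero]
    refine Polynomial.eq_zero_of_degree_lt_of_eval_index_eq_zero (s := Finset.univ.erase i)
      (v := a) (ha.injOn) ?_ ?_
    · have hc : (Finset.univ.erase i).card = m + 1 := by simp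
      rw [hc, Polynomial.degree_lt_iff_coeff_zero]
      intro n hn
      rcases Nat.lt_or_ge (m + 1) n with h1 | h1
      · rw [Polynomial.coeff_sub, Q_coeff_gt _ _ h1, Polynomial.coeff_C_mul,
          Polynomial.coeff_eq_zero_of_natDegree_lt (by rw [fp_natDegree]; exact h1)]
        simp
      · have h2 : n = m + 1 := le_antisymm h1 hn
        subst h2
        rw [Polynomial.coeff_sub, Q_coeff, Polynomial.coeff_C_mul, fp_coeff]
        simp
    · intro j hj
      obtain ⟨d, hd⟩ := h j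
      have hji : j ≠ i := (Finset.mem_erase.1 hj).1
      rw [Polynomial.eval_sub, Q_eval, Polynomial.eval_mul, Polynomial.eval_C, fp_eval]
      have h1 : F a (a j) i = 0 :=
        Finset.prod_eq_zero (Finset.mem_erase.2 ⟨hji, Finset.mem_univ j⟩) (sub_self _)
      have h2 : g.toLinearMap (ver (m + 2) (a j)) i = 0 := by
        have : g.toLinearMap (ver (m + 2) (a j)) = g (ver (m + 2) (a j)) := rfl
        rw [this, hd]
        simp [Pi.single_eq_of_ne hji.symm]
      rw [h1, h2]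
      simp
  have hv : ∀ t i, g (ver (m + 2) t) i = g (inf (m + 2)) i * F a t i := by
    intro t i
    have h1 := Q_eval g.toLinearMap i t
    rw [hQ, Polynomial.eval_mul, Polynomial.eval_C, fp_eval] at h1
    exact h1.symm
  refine ⟨fun i hi => ?_, hv⟩
  have h1 : ∀ t, ver (m + 2) t ∈ LinearMap.ker ((LinearMap.proj i).comp g.toLinearMap) := by
    intro t
    rw [LinearMap.mem_ker]
    have : (LinearMap.proj i).comp g.toLinearMap (ver (m + 2) t) = g (ver (m + 2) t) i := rfl
    rw [this, hv, hi, zero_mul]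
  have h2 := ver_top hq _ h1
  obtain ⟨v, hv'⟩ := g.surjective (Pi.single i 1)
  have h3 : v ∈ LinearMap.ker ((LinearMap.proj i).comp g.toLinearMap) := h2 ▸ Submodule.mem_top
  rw [LinearMap.mem_ker] at h3
  have h4 : (LinearMap.proj i).comp g.toLinearMap v = g v i := rfl
  rw [h4, hv'] at h3
  simp at h3

/-- The curve with coordinates `c i * ∏_{j ≠ i} (t - a j)`. -/
def D (c a : Fin (m + 2) → K) : Set (Submodule K (Fin (m + 2) → K)) :=
  {W | (∃ t, W = pt (c * F a t)) ∨ W = pt c}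

lemma single_ne {i j : Fin (m + 2)} (h : i ≠ j) :
    pt (Pi.single i 1 : Fin (m + 2) → K) ≠ pt (Pi.single j 1) := by
  intro he
  obtain ⟨c, -, hc⟩ := pt_eq he
  have := congrFun hc i
  simp [Pi.single_eq_of_ne h] at this

theorem nrc_form [Fintype K] (hq : m + 2 ≤ Fintype.card K)
    {C : Set (Submodule K (Fin (m + 2) → K))} (hC : IsNRC C)
    (hB : ∀ i, pt (Pi.single i 1) ∈ C) {P : Submodule K (Fin (m + 2) → K)} (hP : P ∈ C)
    (hne : ∀ i, P ≠ pt (Pi.single i 1)) :
    ∃ c : Fin (m + 2) → K, (∀ i, c i ≠ 0) ∧ P = pt c ∧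
      ∃ a : Fin (m + 2) → K, Function.Injective a ∧ C = D c a := by
  have h0 : ∃ g, C = curve g ∧ P = pt (g (inf (m + 2))) := by
    obtain ⟨g, rfl⟩ := hC
    rcases hP with ⟨s, hs⟩ | hs
    · obtain ⟨g', h1, h2⟩ := reparam hq g s
      exact ⟨g', h1.symm, by rw [h2, hs]⟩
    · exact ⟨g, rfl, hs⟩
  obtain ⟨g, rfl, hPg⟩ := h0
  have h1 : ∀ i, ∃ t, pt (Pi.single i 1) = pt (g (ver (m + 2) t)) := by
    intro i
    rcases hB i with h | h
    · exact h
    · exact absurd (hPg.trans h.symm) (hne i)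
  choose a ha using h1
  have hinj : Function.Injective a := by
    intro i j hij
    by_contra hne'
    refine single_ne (K := K) hne' ?_
    rw [ha i, ha j, hij]
  have h2 : ∀ j, ∃ d : K, g (ver (m + 2) (a j)) = d • (Pi.single j 1 : Fin (m + 2) → K) := by
    intro j
    obtain ⟨c, -, hc⟩ := pt_eq (ha j).symm
    exact ⟨c, hc⟩
  obtain ⟨h3, h4⟩ := key hq g a hinj h2
  refine ⟨g (inf (m + 2)), h3, hPg, a, hinj, ?_⟩
  have h5 : ∀ t, g (ver (m + 2) t) = g (inf (m + 2)) * F a t := fun t => by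
    funext i
    exact h4 t i
  ext W
  simp only [curve, D, Set.mem_ofPred_eq, h5]

end Pool.Agent.H569R3.NRC
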