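import Pool.Agent.H569R3.NRC.Frame

set_option autoImplicit false

open Polynomial

namespace Pool.Agent.H569R3.NRC

universe u

variable {K : Type u} [Field K] {m : ℕ}

lemma ver_last (t : K) : ver (m + 2) t (Fin.last (m + 1)) = 1 := by
  simp [ver]

lemma ver_pen (t : K) : ver (m + 2) t ⟨m, by omega⟩ = t := by
  simp [ver]

lemma inf_last : (inf (m + 2) : Fin (m + 2) → K) (Fin.last (m + 1)) = 0 := by
  simp [inf]

/-- The parametrisation of the standard curve. -/
def par : Option K → (Fin (m + 2) → K)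
  | none => inf (m + 2)
  | some t => ver (m + 2) t

lemma curve_eq (g : (Fin (m + 2) → K) ≃ₗ[K] (Fin (m + 2) → K)) :
    curve g = (fun t : Option K => pt (g (par t))) '' Set.univ := by
  ext W
  constructor
  · rintro (⟨t, rfl⟩ | rfl)
    · exact ⟨some t, trivial, rfl⟩
    · exact ⟨none, trivial, rfl⟩
  · rintro ⟨t | t, -, rfl⟩
    · exact Or.inr rfl
    · exact Or.inl ⟨t, rfl⟩

lemma par_inj (g : (Fin (m + 2) → K) ≃ₗ[K] (Fin (m + 2) → K)) :
    Function.Injective (fun t : Option K => pt (g (par t))) := by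
  intro s t h
  obtain ⟨c, hc, h1⟩ := pt_eq h
  rw [← map_smul] at h1
  have h2 := g.injective h1
  have h3 := congrFun h2 (Fin.last (m + 1))
  rw [Pi.smul_apply, smul_eq_mul] at h3
  rcases s with _ | s <;> rcases t with _ | t
  · rfl
  · simp only [par, inf_last, ver_last, mul_one] at h3
    exact absurd h3.symm hc
  · simp only [par, inf_last, ver_last, mul_zero] at h3
    exact absurd h3 one_ne_zero
  · simp only [par, ver_last, mul_one] at h3
    have h4 := congrFun h2 ⟨m, by omega⟩
    rw [Pi.smul_apply, smul_eq_mul, ← h3, one_mul] at h4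
    simp only [par, ver_pen] at h4
    rw [h4]

lemma ncard_curve [Fintype K] {C : Set (Submodule K (Fin (m + 2) → K))} (hC : IsNRC C) :
    C.ncard = Fintype.card K + 1 := by
  obtain ⟨g, rfl⟩ := hC
  rw [curve_eq, Set.ncard_image_of_injective _ (par_inj g), Set.ncard_univ,
    Nat.card_eq_fintype_card, Fintype.card_option]

lemma ncard_Ba : (Ba : Set (Submodule K (Fin (m + 2) → K))).ncard = m + 2 := by
  have h : Function.Injective (fun i : Fin (m + 2) => pt (Pi.single i 1 : Fin (m + 2) → K)) := by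
    intro i j hij
    by_contra hne
    exact single_ne hne hij
  rw [Ba, ← Set.image_univ, Set.ncard_image_of_injective _ h, Set.ncard_univ,
    Nat.card_eq_fintype_card, Fintype.card_fin]

/-- Points with no zero coordinate. -/
def Ge : Set (Submodule K (Fin (m + 2) → K)) := {P | ∃ c, (∀ i, c i ≠ 0) ∧ P = pt c}

lemma Ge_eq : (Ge : Set (Submodule K (Fin (m + 2) → K))) =
    (fun u : Fin (m + 1) → Kˣ => pt (Fin.cons 1 (fun i => (u i : K)))) '' Set.univ := by
  ext P
  constructor
  · rintro ⟨c, hc, rfl⟩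
    refine ⟨fun i => Units.mk0 ((c 0)⁻¹ * c i.succ) (mul_ne_zero (inv_ne_zero (hc 0)) (hc _)),
      trivial, ?_⟩
    have h : (Fin.cons 1 (fun i : Fin (m + 1) => ((Units.mk0 ((c 0)⁻¹ * c i.succ)
        (mul_ne_zero (inv_ne_zero (hc 0)) (hc _)) : Kˣ) : K)) : Fin (m + 2) → K) =
        (c 0)⁻¹ • c := by
      funext i
      refine Fin.cases ?_ (fun j => ?_) i
      · simp [inv_mul_cancel₀ (hc 0)]
      · simp
    change pt (Fin.cons 1 (fun i : Fin (m + 1) => ((Units.mk0 ((c 0)⁻¹ * c i.succ)
        (mul_ne_zero (inv_ne_zero (hc 0)) (hc _)) : Kˣ) : K)) : Fin (m + 2) → K) = pt c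
    rw [h, pt_smul (inv_ne_zero (hc 0))]
  · rintro ⟨u, -, rfl⟩
    refine ⟨_, fun i => ?_, rfl⟩
    refine Fin.cases ?_ (fun j => ?_) i
    · simp
    · simp

lemma ncard_Ge [Fintype K] : (Ge : Set (Submodule K (Fin (m + 2) → K))).ncard =
    (Fintype.card K - 1) ^ (m + 1) := by
  have h : Function.Injective
      (fun u : Fin (m + 1) → Kˣ => pt (Fin.cons 1 (fun i => (u i : K)) : Fin (m + 2) → K)) := by
    intro u v huv
    obtain ⟨c, -, hc⟩ := pt_eq huv
    have h0 := congrFun hc 0
    simp only [Fin.cons_zero, Pi.smul_apply, smul_eq_mul, mul_one] at h0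
    funext i
    have h1 := congrFun hc i.succ
    simp only [Fin.cons_succ, Pi.smul_apply, smul_eq_mul, ← h0, one_mul] at h1
    exact Units.ext h1
  rw [Ge_eq, Set.ncard_image_of_injective _ h, Set.ncard_univ, Nat.card_fun, Nat.card_units,
    Nat.card_eq_fintype_card, Nat.card_eq_fintype_card, Fintype.card_fin]

lemma act_diag_Fr (c : Fin (m + 2) → K) (hc : ∀ i, c i ≠ 0) :
    act (diagE c hc) Fr = insert (pt c) Ba := by
  have h1 : ∀ i, diagE c hc (Pi.single i 1) = c i • (Pi.single i 1 : Fin (m + 2) → K) := by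
    intro i
    rw [diagE_apply]
    funext l
    by_cases hl : l = i
    · subst hl
      simp
    · simp [Pi.single_eq_of_ne hl]
  rw [act, Fr, Set.image_insert_eq, map_pt, diagE_apply, mul_one]
  congr 1
  rw [Ba, ← Set.range_comp]
  congr 1
  funext i
  rw [Function.comp_apply, map_pt, h1, pt_smul (hc i)]

theorem count_Ba [Fintype K] (hq : m + 2 < Fintype.card K) :
    (through (Ba : Set (Submodule K (Fin (m + 2) → K)))).ncard =
      (Fintype.card K - 1) ^ m * (Fintype.card K - 1).descFactorial m := by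
  classical
  have hfin : ∀ S : Set (Submodule K (Fin (m + 2) → K)), S.Finite := fun S => Set.toFinite S
  have hfin' : ∀ S : Set (Set (Submodule K (Fin (m + 2) → K))), S.Finite := fun S => Set.toFinite S
  have h := Finset.card_mul_eq_card_mul (fun (C : Set (Submodule K (Fin (m + 2) → K)))
      (P : Submodule K (Fin (m + 2) → K)) => P ∈ C)
    (s := (hfin' (through Ba)).toFinset) (t := (hfin Ge).toFinset)
    (m := Fintype.card K - 1 - m) (n := (Fintype.card K - 2).descFactorial m) ?_ ?_
  · rw [← Set.ncard_eq_toFinset_card _ (hfin' _), ← Set.ncard_eq_toFinset_card _ (hfin _),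
      ncard_Ge] at h
    obtain ⟨q, hqq⟩ : ∃ q, Fintype.card K = q + 2 := ⟨Fintype.card K - 2, by omega⟩
    rw [hqq] at h hq ⊢
    have e1 : q + 2 - 1 = q + 1 := rfl
    have e2 : q + 2 - 2 = q := rfl
    rw [e1, e2] at h
    rw [e1]
    have h1 : (q + 1 - m) * (q + 1).descFactorial m = (q + 1) * q.descFactorial m := by
      rw [← Nat.descFactorial_succ, Nat.succ_descFactorial_succ]
    have h2 : 0 < q + 1 - m := by omega
    refine Nat.eq_of_mul_eq_mul_right h2 ?_
    rw [h, pow_succ, mul_assoc, ← h1]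
    ring
  · intro C hC
    rw [Set.Finite.mem_toFinset] at hC
    have h1 : (((hfin Ge).toFinset.bipartiteAbove (fun (C : Set (Submodule K (Fin (m + 2) → K)))
        (P : Submodule K (Fin (m + 2) → K)) => P ∈ C) C : Finset _) :
        Set (Submodule K (Fin (m + 2) → K))) = C \ Ba := by
      ext P
      simp only [Finset.mem_coe, Finset.mem_bipartiteAbove, Set.Finite.mem_toFinset, Set.mem_sdiff]
      constructor
      · rintro ⟨⟨c, hc, rfl⟩, hP⟩
        refine ⟨hP, ?_⟩
        rintro ⟨i, hi⟩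
        exact pt_ne_single hc i hi.symm
      · rintro ⟨hP, hB⟩
        obtain ⟨c, hc, h2, -⟩ := nrc_form hq.le hC.1 (fun i => hC.2 ⟨i, rfl⟩) hP
          (fun i hi => hB ⟨i, hi.symm⟩)
        exact ⟨⟨c, hc, h2⟩, hP⟩
    rw [← Set.ncard_coe_finset, h1, Set.ncard_sdiff hC.2 (hfin _), ncard_curve hC.1, ncard_Ba]
    omega
  · intro P hP
    rw [Set.Finite.mem_toFinset] at hP
    obtain ⟨c, hc, rfl⟩ := hP
    have h1 : (((hfin' (through Ba)).toFinset.bipartiteBelow
        (fun (C : Set (Submodule K (Fin (m + 2) → K)))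
        (P : Submodule K (Fin (m + 2) → K)) => P ∈ C) (pt c) : Finset _) :
        Set (Set (Submodule K (Fin (m + 2) → K)))) = through (act (diagE c hc) Fr) := by
      ext C
      simp only [Finset.mem_coe, Finset.mem_bipartiteBelow, Set.Finite.mem_toFinset, act_diag_Fr]
      constructor
      · rintro ⟨⟨h2, h3⟩, h4⟩
        exact ⟨h2, Set.insert_subset h4 h3⟩
      · rintro ⟨h2, h3⟩
        exact ⟨⟨h2, (Set.subset_insert _ _).trans h3⟩, h3 (Or.inl rfl)⟩
    rw [← Set.ncard_coe_finset, h1, ncard_through_act, count_Fr hq]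

end Pool.Agent.H569R3.NRC
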