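import Mathlib

set_option autoImplicit false

open Polynomial

namespace Pool.Agent.H569R3.NRC

universe u

variable {K : Type u} [Field K]

/-- The point of the projective space with coordinate vector `v`. -/
def pt {k : ℕ} (v : Fin k → K) : Submodule K (Fin k → K) := Submodule.span K {v}

/-- The vector `(t^(k-1), ..., t, 1)`. -/
def ver (k : ℕ) (t : K) : Fin k → K := fun i => t ^ (k - 1 - (i : ℕ))

/-- The vector `(1, 0, ..., 0)`. -/
def inf (k : ℕ) : Fin k → K := fun i => if (i : ℕ) = 0 then 1 else 0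

/-- The image of the standard normal rational curve under the projectivity of `g`. -/
def curve {k : ℕ} (g : (Fin k → K) ≃ₗ[K] (Fin k → K)) : Set (Submodule K (Fin k → K)) :=
  {W | (∃ t : K, W = pt (g (ver k t))) ∨ W = pt (g (inf k))}

/-- Normal rational curves. -/
def IsNRC {k : ℕ} (C : Set (Submodule K (Fin k → K))) : Prop := ∃ g, C = curve g

open Classical in
/-- Arcs: finite sets of points, at most `k - 1` of them in a hyperplane. -/
def IsArc {k : ℕ} (S : Finset (Submodule K (Fin k → K))) : Prop :=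
  (∀ W ∈ S, Module.finrank K W = 1) ∧
    ∀ H : Submodule K (Fin k → K), IsCoatom H → (S.filter (fun W => W ≤ H)).card ≤ k - 1

section poly

variable {m : ℕ}

/-- The linear map whose coordinates are the polynomials `P i`. -/
def L (P : Fin (m + 2) → K[X]) : (Fin (m + 2) → K) →ₗ[K] (Fin (m + 2) → K) where
  toFun v := fun i => ∑ j : Fin (m + 2), (P i).coeff (m + 1 - (j : ℕ)) * v j
  map_add' v w := by
    funext i
    simp [mul_add, Finset.sum_add_distrib]
  map_smul' c v := by
    funext i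
    simp only [Pi.smul_apply, smul_eq_mul, RingHom.id_apply, Finset.mul_sum]
    exact Finset.sum_congr rfl fun j _ => by ring

lemma sum_rev (f : ℕ → K) :
    ∑ j : Fin (m + 2), f (m + 1 - (j : ℕ)) = ∑ j : Fin (m + 2), f (j : ℕ) := by
  rw [← Equiv.sum_comp Fin.revPerm (fun j : Fin (m + 2) => f (j : ℕ))]
  refine Finset.sum_congr rfl fun j _ => ?_
  congr 1
  simp only [Fin.revPerm_apply, Fin.val_rev]
  omega

lemma L_ver (P : Fin (m + 2) → K[X]) (hP : ∀ i, (P i).natDegree ≤ m + 1) (t : K) (i : Fin (m + 2)) :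
    L P (ver (m + 2) t) i = (P i).eval t := by
  have h1 : L P (ver (m + 2) t) i =
      ∑ j : Fin (m + 2), (fun n => (P i).coeff n * t ^ n) (m + 1 - (j : ℕ)) := rfl
  rw [h1, sum_rev (m := m) (fun n => (P i).coeff n * t ^ n),
    Fin.sum_univ_eq_sum_range (fun n => (P i).coeff n * t ^ n) (m + 2),
    Polynomial.eval_eq_sum_range' (Nat.lt_succ_of_le (hP i))]

lemma L_inf (P : Fin (m + 2) → K[X]) (i : Fin (m + 2)) :
    L P (inf (m + 2)) i = (P i).coeff (m + 1) := by
  have h1 : L P (inf (m + 2)) i =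
      ∑ j : Fin (m + 2), (P i).coeff (m + 1 - (j : ℕ)) * (if (j : ℕ) = 0 then 1 else 0) := rfl
  rw [h1, Finset.sum_eq_single (0 : Fin (m + 2))]
  · simp
  · intro j _ hj
    have : (j : ℕ) ≠ 0 := fun h => hj (Fin.ext h)
    simp [this]
  · simp

/-- The polynomial `∏_{j ≠ i} (X - a j)`. -/
noncomputable def fp (a : Fin (m + 2) → K) (i : Fin (m + 2)) : K[X] :=
  ∏ j ∈ Finset.univ.erase i, (X - C (a j))

/-- Its values. -/
def F (a : Fin (m + 2) → K) (t : K) : Fin (m + 2) → K :=
  fun i => ∏ j ∈ Finset.univ.erase i, (t - a j)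

lemma fp_eval (a : Fin (m + 2) → K) (i : Fin (m + 2)) (t : K) : (fp a i).eval t = F a t i := by
  simp [fp, F, Polynomial.eval_prod]

lemma fp_monic (a : Fin (m + 2) → K) (i : Fin (m + 2)) : (fp a i).Monic :=
  Polynomial.monic_prod_of_monic _ _ fun j _ => Polynomial.monic_X_sub_C _

lemma fp_natDegree (a : Fin (m + 2) → K) (i : Fin (m + 2)) : (fp a i).natDegree = m + 1 := by
  rw [fp, Polynomial.natDegree_prod_of_monic _ _ fun j _ => Polynomial.monic_X_sub_C _]
  simp

lemma fp_coeff (a : Fin (m + 2) → K) (i : Fin (m + 2)) : (fp a i).coeff (m + 1) = 1 := by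
  have := (fp_monic a i).coeff_natDegree
  rwa [fp_natDegree] at this

lemma F_self (a : Fin (m + 2) → K) (ha : Function.Injective a) (i : Fin (m + 2)) :
    ∃ c : K, c ≠ 0 ∧ F a (a i) = c • Pi.single i 1 := by
  refine ⟨F a (a i) i, ?_, ?_⟩
  · refine Finset.prod_ne_zero_iff.2 fun j hj => sub_ne_zero.2 fun h => ?_
    exact (Finset.mem_erase.1 hj).1 (ha h.symm)
  · funext l
    by_cases hl : l = i
    · subst hl
      simp
    · simp only [Pi.smul_apply, smul_eq_mul, Pi.single_eq_of_ne hl, mul_zero]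
      exact Finset.prod_eq_zero (Finset.mem_erase.2 ⟨fun h => hl h.symm, Finset.mem_univ i⟩)
        (sub_self _)

lemma mul_F (a : Fin (m + 2) → K) (t : K) (i : Fin (m + 2)) :
    (t - a i) * F a t i = ∏ j, (t - a j) :=
  Finset.mul_prod_erase _ (fun j => t - a j) (Finset.mem_univ i)

lemma surj_of_single {A : (Fin (m + 2) → K) →ₗ[K] (Fin (m + 2) → K)}
    (h : ∀ i, ∃ c : K, c ≠ 0 ∧ c • (Pi.single i 1 : Fin (m + 2) → K) ∈ LinearMap.range A) :
    Function.Surjective A := by
  rw [← LinearMap.range_eq_top, eq_top_iff]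
  intro v _
  have hv : v = ∑ i, v i • (Pi.single i 1 : Fin (m + 2) → K) := by
    funext l
    simp [Finset.sum_apply, Pi.single_apply]
  rw [hv]
  refine Submodule.sum_mem _ fun i _ => ?_
  obtain ⟨c, hc, hm⟩ := h i
  have : v i • (Pi.single i 1 : Fin (m + 2) → K) =
      (v i * c⁻¹) • (c • (Pi.single i 1 : Fin (m + 2) → K)) := by
    rw [smul_smul, mul_assoc, inv_mul_cancel₀ hc, mul_one]
  rw [this]
  exact Submodule.smul_mem _ _ hm

end poly

end Pool.Agent.H569R3.NRC
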