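import Pool.Agent.H569R3.NRC.Thresh2

set_option autoImplicit false

open Polynomial

namespace Pool.Agent.H569R3.NRC

universe u

variable {K : Type u} [Field K] {m : ℕ}

lemma fpoly_card_le (φ : (Fin (m + 2) → K) →ₗ[K] K) (hφ : φ ≠ 0) (R : Finset K)
    (hR : ∀ t ∈ R, φ (ver (m + 2) t) = 0) {N : ℕ} (hN : ∀ n, N ≤ n → (fpoly φ).coeff n = 0) :
    R.card < N := by
  by_contra hcon
  push Not at hcon
  refine hφ (fpoly_eq_zero φ ?_)
  refine Polynomial.eq_zero_of_degree_lt_of_eval_finset_eq_zero R ?_ fun t ht => ?_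
  · rw [Polynomial.degree_lt_iff_coeff_zero]
    intro n hn
    exact hN n (hcon.trans hn)
  · rw [fpoly_eval, hR t ht]

lemma coeff_top (φ : (Fin (m + 2) → K) →ₗ[K] K) :
    (fpoly φ).coeff (m + 1) = φ (Pi.single 0 1) := by
  have := fpoly_coeff φ 0
  simpa using this

lemma coeff_snd (φ : (Fin (m + 2) → K) →ₗ[K] K) :
    (fpoly φ).coeff m = φ (Pi.single 1 1) := by
  have := fpoly_coeff φ 1
  simpa using this

lemma fpoly_sum (φ : (Fin (m + 2) → K) →ₗ[K] K) (hφ : φ ≠ 0) (R : Finset K)
    (hR : ∀ t ∈ R, φ (ver (m + 2) t) = 0) (hc : R.card = m + 1)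
    (hx : φ (Pi.single 1 1) = 0) : ∑ t ∈ R, t = 0 := by
  have hP : fpoly φ = C (φ (Pi.single 0 1)) * ∏ t ∈ R, (X - C t) := by
    rw [← sub_eq_zero]
    have hmon : (∏ t ∈ R, (X - C t)).Monic :=
      Polynomial.monic_prod_of_monic _ _ fun j _ => Polynomial.monic_X_sub_C _
    have hdeg : (∏ t ∈ R, (X - C t)).natDegree = m + 1 := by
      rw [Polynomial.natDegree_prod_of_monic _ _ fun j _ => Polynomial.monic_X_sub_C _]
      simp [hc]
    refine Polynomial.eq_zero_of_degree_lt_of_eval_finset_eq_zero R ?_ fun t ht => ?_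
    · rw [hc, Polynomial.degree_lt_iff_coeff_zero]
      intro n hn
      rcases Nat.lt_or_ge (m + 1) n with h1 | h1
      · rw [Polynomial.coeff_sub, fpoly_coeff_gt _ h1, Polynomial.coeff_C_mul,
          Polynomial.coeff_eq_zero_of_natDegree_lt (by rw [hdeg]; exact h1)]
        simp
      · have h2 : n = m + 1 := le_antisymm h1 hn
        subst h2
        have h4 := hmon.coeff_natDegree
        rw [hdeg] at h4
        rw [Polynomial.coeff_sub, coeff_top, Polynomial.coeff_C_mul, h4]
        simp
    · rw [Polynomial.eval_sub, fpoly_eval, hR t ht, Polynomial.eval_mul, Polynomial.eval_prod,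
        Finset.prod_eq_zero ht (by simp)]
      simp
  have h0 : φ (Pi.single 0 1) ≠ 0 := by
    intro h
    rw [h] at hP
    exact hφ (fpoly_eq_zero φ (by rw [hP]; simp))
  have h1 := Polynomial.prod_X_sub_C_coeff_card_pred R (fun t : K => t) (by omega)
  have h2 := coeff_snd φ
  rw [hP, hx, Polynomial.coeff_C_mul] at h2
  rw [hc, Nat.add_sub_cancel] at h1
  rw [h1] at h2
  rcases mul_eq_zero.1 h2 with h | h
  · exact absurd h h0
  · exact neg_eq_zero.1 h

open Classical in
/-- Two points and the points of the curve with parameters in `T`. -/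
noncomputable def earc (T : Finset K) : Finset (Submodule K (Fin (m + 2) → K)) :=
  insert (pt (Pi.single 1 1)) (insert (pt (Pi.single 0 1)) (T.image fun t => pt (ver (m + 2) t)))

lemma zero_ne_last : (0 : Fin (m + 2)) ≠ Fin.last (m + 1) := fun h => by
  have := congrArg Fin.val h
  simp at this

lemma one_ne_last (hm : 1 ≤ m) : (1 : Fin (m + 2)) ≠ Fin.last (m + 1) := fun h => by
  have := congrArg Fin.val h
  simp at this
  omega

lemma earc_isArc (hm : 1 ≤ m) {T : Finset K}
    (hT : ∀ R ⊆ T, R.card = m + 1 → ∑ t ∈ R, t ≠ 0) :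
    IsArc (earc (m := m) T) := by
  classical
  refine ⟨fun W hW => ?_, fun H hH => ?_⟩
  · rcases Finset.mem_insert.1 hW with rfl | hW
    · exact finrank_pt (by simp)
    · rcases Finset.mem_insert.1 hW with rfl | hW
      · exact finrank_pt (by simp)
      · obtain ⟨t, -, rfl⟩ := Finset.mem_image.1 hW
        exact finrank_pt (ver_ne t)
  · obtain ⟨φ, hφ, hle⟩ := Submodule.exists_le_ker_of_lt_top H hH.lt_top
    set R := T.filter (fun t => φ (ver (m + 2) t) = 0) with hR
    have hR0 : ∀ t ∈ R, φ (ver (m + 2) t) = 0 := fun t ht => (Finset.mem_filter.1 ht).2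
    have hRc : R.card ≤ m + 1 := fpoly_roots φ hφ R hR0
    have hk : ∀ v : Fin (m + 2) → K, pt v ≤ H → φ v = 0 := fun v hv =>
      LinearMap.mem_ker.1 (hle (hv (mem_pt v)))
    have him := Finset.card_image_le (s := R) (f := fun t => pt (ver (m + 2) t))
    have hgt : ∀ n, m + 2 ≤ n → (fpoly φ).coeff n = 0 := fun n hn => fpoly_coeff_gt φ (by omega)
    by_cases hE : pt (Pi.single 1 1 : Fin (m + 2) → K) ≤ H
    · by_cases hI : pt (Pi.single 0 1 : Fin (m + 2) → K) ≤ H
      · have h1 : R.card < m := by
          refine fpoly_card_le φ hφ R hR0 fun n hn => ?_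
          have h3 : n = m ∨ n = m + 1 ∨ m + 2 ≤ n := by omega
          rcases h3 with rfl | rfl | h3
          · rw [coeff_snd, hk _ hE]
          · rw [coeff_top, hk _ hI]
          · exact hgt n h3
        refine (Finset.card_le_card (t := insert (pt (Pi.single 1 1)) (insert (pt (Pi.single 0 1))
          (R.image fun t => pt (ver (m + 2) t)))) ?_).trans ?_
        · intro W hW
          obtain ⟨hW1, hW2⟩ := Finset.mem_filter.1 hW
          rcases Finset.mem_insert.1 hW1 with rfl | hW1
          · exact Finset.mem_insert_self _ _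
          · refine Finset.mem_insert_of_mem ?_
            rcases Finset.mem_insert.1 hW1 with rfl | hW1
            · exact Finset.mem_insert_self _ _
            · obtain ⟨t, ht, rfl⟩ := Finset.mem_image.1 hW1
              exact Finset.mem_insert_of_mem (Finset.mem_image_of_mem _
                (Finset.mem_filter.2 ⟨ht, hk _ hW2⟩))
        · refine (Finset.card_insert_le _ _).trans ?_
          have := Finset.card_insert_le (pt (Pi.single 0 1 : Fin (m + 2) → K))
            (R.image fun t => pt (ver (m + 2) t))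
          omega
      · have h1 : R.card ≠ m + 1 := fun hc => hT R (Finset.filter_subset _ _) hc
          (fpoly_sum φ hφ R hR0 hc (hk _ hE))
        refine (Finset.card_le_card (t := insert (pt (Pi.single 1 1))
          (R.image fun t => pt (ver (m + 2) t))) ?_).trans ?_
        · intro W hW
          obtain ⟨hW1, hW2⟩ := Finset.mem_filter.1 hW
          rcases Finset.mem_insert.1 hW1 with rfl | hW1
          · exact Finset.mem_insert_self _ _
          · refine Finset.mem_insert_of_mem ?_
            rcases Finset.mem_insert.1 hW1 with rfl | hW1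
            · exact absurd hW2 hI
            · obtain ⟨t, ht, rfl⟩ := Finset.mem_image.1 hW1
              exact Finset.mem_image_of_mem _ (Finset.mem_filter.2 ⟨ht, hk _ hW2⟩)
        · refine (Finset.card_insert_le _ _).trans ?_
          omega
    · by_cases hI : pt (Pi.single 0 1 : Fin (m + 2) → K) ≤ H
      · have h1 : R.card < m + 1 := by
          refine fpoly_card_le φ hφ R hR0 fun n hn => ?_
          have h3 : n = m + 1 ∨ m + 2 ≤ n := by omega
          rcases h3 with rfl | h3
          · rw [coeff_top, hk _ hI]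
          · exact hgt n h3
        refine (Finset.card_le_card (t := insert (pt (Pi.single 0 1))
          (R.image fun t => pt (ver (m + 2) t))) ?_).trans ?_
        · intro W hW
          obtain ⟨hW1, hW2⟩ := Finset.mem_filter.1 hW
          rcases Finset.mem_insert.1 hW1 with rfl | hW1
          · exact absurd hW2 hE
          · rcases Finset.mem_insert.1 hW1 with rfl | hW1
            · exact Finset.mem_insert_self _ _
            · obtain ⟨t, ht, rfl⟩ := Finset.mem_image.1 hW1
              exact Finset.mem_insert_of_mem (Finset.mem_image_of_mem _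
                (Finset.mem_filter.2 ⟨ht, hk _ hW2⟩))
        · refine (Finset.card_insert_le _ _).trans ?_
          omega
      · refine (Finset.card_le_card (t := R.image fun t => pt (ver (m + 2) t)) ?_).trans ?_
        · intro W hW
          obtain ⟨hW1, hW2⟩ := Finset.mem_filter.1 hW
          rcases Finset.mem_insert.1 hW1 with rfl | hW1
          · exact absurd hW2 hE
          · rcases Finset.mem_insert.1 hW1 with rfl | hW1
            · exact absurd hW2 hI
            · obtain ⟨t, ht, rfl⟩ := Finset.mem_image.1 hW1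
              exact Finset.mem_image_of_mem _ (Finset.mem_filter.2 ⟨ht, hk _ hW2⟩)
        · omega

lemma single_ne_ver (i : Fin (m + 2)) (hi : i ≠ Fin.last (m + 1)) (t : K) :
    pt (Pi.single i 1 : Fin (m + 2) → K) ≠ pt (ver (m + 2) t) := by
  intro h
  obtain ⟨c, hc, h1⟩ := pt_eq h
  have h2 := congrFun h1 (Fin.last (m + 1))
  rw [Pi.smul_apply, ver_last, Pi.single_eq_of_ne hi.symm, smul_eq_mul, mul_one] at h2
  exact hc h2.symm

lemma zero_ne_one_fin : (1 : Fin (m + 2)) ≠ 0 := fun h => by
  have := congrArg Fin.val h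
  simp at this

lemma earc_card (hm : 1 ≤ m) (T : Finset K) : (earc (m := m) T).card = T.card + 2 := by
  classical
  rw [earc, Finset.card_insert_of_notMem, Finset.card_insert_of_notMem,
    Finset.card_image_of_injective _ ver_pt_inj]
  · intro h
    obtain ⟨t, -, h⟩ := Finset.mem_image.1 h
    exact single_ne_ver 0 zero_ne_last t h.symm
  · intro h
    rcases Finset.mem_insert.1 h with h | h
    · exact single_ne zero_ne_one_fin h
    · obtain ⟨t, -, h⟩ := Finset.mem_image.1 h
      exact single_ne_ver 1 (one_ne_last hm) t h.symm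

lemma earc_not [Fintype K] (hq : m + 2 < Fintype.card K) (hm : 1 ≤ m)
    {T : Finset K} (hT : ∀ R ⊆ T, R.card = m + 1 → ∑ t ∈ R, t ≠ 0)
    (hc : m + 3 ≤ T.card) :
    ¬ ∃ C : Set (Submodule K (Fin (m + 2) → K)), IsNRC C ∧ ∀ P ∈ earc T, P ∈ C := by
  classical
  rintro ⟨C, hC, h⟩
  have hS : IsArc (insert (pt (Pi.single 0 1 : Fin (m + 2) → K))
      (T.image fun t => pt (ver (m + 2) t))) :=
    (earc_isArc hm hT).mono (Finset.subset_insert _ _)
  have h1 : C = curve (LinearEquiv.refl K (Fin (m + 2) → K)) := by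
    refine unique_of_large hq hS ?_ ⟨hC, ?_⟩ ⟨⟨_, rfl⟩, ?_⟩
    · rw [Finset.card_insert_of_notMem, Finset.card_image_of_injective _ ver_pt_inj]
      · omega
      · intro h
        obtain ⟨t, -, h⟩ := Finset.mem_image.1 h
        exact single_ne_ver 0 zero_ne_last t h.symm
    · intro W hW
      exact h W (Finset.mem_insert_of_mem (Finset.mem_coe.1 hW))
    · intro W hW
      rcases Finset.mem_insert.1 (Finset.mem_coe.1 hW) with rfl | hW
      · right
        rw [LinearEquiv.refl_apply, inf_eq]
      · obtain ⟨t, -, rfl⟩ := Finset.mem_image.1 hW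
        exact Or.inl ⟨t, rfl⟩
  have h2 := h _ (Finset.mem_insert_self _ _)
  rw [h1] at h2
  rcases h2 with ⟨t, h2⟩ | h2
  · exact single_ne_ver 1 (one_ne_last hm) t h2
  · rw [LinearEquiv.refl_apply, inf_eq] at h2
    exact single_ne zero_ne_one_fin h2

theorem even_bound [Fintype K] (heven : Even (Fintype.card K)) (hm : 1 ≤ m) (hme : Even m) {n : ℕ}
    (hn : m + 5 ≤ n) (hn2 : n ≤ Fintype.card K / 2 + 2) :
    ∃ S : Finset (Submodule K (Fin (m + 2) → K)), IsArc S ∧ S.card = n ∧
      ¬ ∃ C : Set (Submodule K (Fin (m + 2) → K)), IsNRC C ∧ ∀ P ∈ S, P ∈ C := by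
  classical
  have hchar : ringChar K = 2 :=
    FiniteField.even_card_iff_char_two.2 (Nat.even_iff.1 heven)
  haveI : CharP K 2 := hchar ▸ ringChar.charP K
  letI : Algebra (ZMod 2) K := ZMod.algebra K 2
  obtain ⟨f, hf⟩ : ∃ f : Module.Dual (ZMod 2) K, f 1 ≠ 0 := by
    by_contra hcon
    push Not at hcon
    exact one_ne_zero ((Module.forall_dual_apply_eq_zero_iff (ZMod 2) (1 : K)).1 hcon)
  have hf1 : f 1 = 1 := by
    have h : ∀ z : ZMod 2, z ≠ 0 → z = 1 := by decide
    exact h _ hf
  set U := (Finset.univ : Finset K).filter (fun t => f t = 1) with hU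
  have hUc : Fintype.card K / 2 ≤ U.card := by
    have h1 := Finset.card_filter_add_card_filter_not (s := (Finset.univ : Finset K)) (fun t => f t = 1)
    have h2 : ((Finset.univ : Finset K).filter (fun t => ¬ f t = 1)).card ≤ U.card := by
      refine Finset.card_le_card_of_injOn (fun t => t + 1) (fun t ht => ?_)
        (fun a _ b _ h => add_right_cancel h)
      have h3 := (Finset.mem_filter.1 (Finset.mem_coe.1 ht)).2
      refine Finset.mem_coe.2 (Finset.mem_filter.2 ⟨Finset.mem_univ _, ?_⟩)
      have h4 : ∀ z : ZMod 2, z ≠ 1 → z + 1 = 1 := by decide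
      rw [map_add, hf1]
      exact h4 _ h3
    rw [Finset.card_univ, ← hU] at h1
    omega
  obtain ⟨T, hT, hTc⟩ := Finset.exists_subset_card_eq (s := U) (n := n - 2) (by omega)
  have hTR : ∀ R ⊆ T, R.card = m + 1 → ∑ t ∈ R, t ≠ 0 := by
    intro R hR hc h
    have h1 : f (∑ t ∈ R, t) = ((m + 1 : ℕ) : ZMod 2) := by
      rw [map_sum, Finset.sum_congr rfl fun t ht => (Finset.mem_filter.1 (hT (hR ht))).2,
        Finset.sum_const, hc]
      simp
    rw [h, map_zero] at h1
    have h2 := (ZMod.natCast_eq_zero_iff (m + 1) 2).1 h1.symm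
    obtain ⟨r, hr⟩ := hme
    omega
  refine ⟨earc T, earc_isArc hm hTR, by rw [earc_card hm]; omega, ?_⟩
  exact earc_not (by omega) hm hTR (by omega)

end Pool.Agent.H569R3.NRC
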