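import Pool.Agent.H569R3.NRC.Core

set_option autoImplicit false

open Polynomial

namespace Pool.Agent.H569R3.NRC

universe u

variable {K : Type u} [Field K] {m : ℕ}

/-- The diagonal projectivity. -/
def diagE (c : Fin (m + 2) → K) (hc : ∀ i, c i ≠ 0) : (Fin (m + 2) → K) ≃ₗ[K] (Fin (m + 2) → K) :=
  LinearEquiv.piCongrRight fun i => LinearEquiv.smulOfNeZero K K (c i) (hc i)

lemma diagE_apply (c : Fin (m + 2) → K) (hc : ∀ i, c i ≠ 0) (v : Fin (m + 2) → K) :
    diagE c hc v = c * v := rfl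

lemma isNRC_D (c a : Fin (m + 2) → K) (hc : ∀ i, c i ≠ 0) (ha : Function.Injective a) :
    IsNRC (D c a) := by
  have hs := fp_surj a ha
  have hi : Function.Injective (L (fp a)) := LinearMap.injective_iff_surjective.2 hs
  let e := LinearEquiv.ofBijective (L (fp a)) ⟨hi, hs⟩
  have h1 : ∀ t, e (ver (m + 2) t) = F a t := fun t => by
    funext i
    have : e (ver (m + 2) t) i = L (fp a) (ver (m + 2) t) i := rfl
    rw [this, L_ver _ (fun j => (fp_natDegree a j).le), fp_eval]
  have h2 : e (inf (m + 2)) = 1 := by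
    funext i
    have : e (inf (m + 2)) i = L (fp a) (inf (m + 2)) i := rfl
    rw [this, L_inf, fp_coeff, Pi.one_apply]
  refine ⟨e.trans (diagE c hc), ?_⟩
  ext W
  simp only [D, curve, Set.mem_ofPred_eq, LinearEquiv.trans_apply, h1, h2, diagE_apply, mul_one]

/-- The action of a projectivity on point sets. -/
def act (e : (Fin (m + 2) → K) ≃ₗ[K] (Fin (m + 2) → K))
    (C : Set (Submodule K (Fin (m + 2) → K))) : Set (Submodule K (Fin (m + 2) → K)) :=
  Submodule.map e.toLinearMap '' C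

lemma map_pt (e : (Fin (m + 2) → K) ≃ₗ[K] (Fin (m + 2) → K)) (v : Fin (m + 2) → K) :
    Submodule.map e.toLinearMap (pt v) = pt (e v) := by
  rw [pt, Submodule.map_span, Set.image_singleton]
  rfl

lemma map_inj (e : (Fin (m + 2) → K) ≃ₗ[K] (Fin (m + 2) → K)) :
    Function.Injective (Submodule.map e.toLinearMap) :=
  Submodule.map_injective_of_injective e.injective

lemma act_curve (e g : (Fin (m + 2) → K) ≃ₗ[K] (Fin (m + 2) → K)) :
    act e (curve g) = curve (g.trans e) := by
  ext W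
  constructor
  · rintro ⟨W', ⟨t, rfl⟩ | rfl, rfl⟩
    · exact Or.inl ⟨t, map_pt _ _⟩
    · exact Or.inr (map_pt _ _)
  · rintro (⟨t, rfl⟩ | rfl)
    · exact ⟨_, Or.inl ⟨t, rfl⟩, map_pt _ _⟩
    · exact ⟨_, Or.inr rfl, map_pt _ _⟩

lemma exists_pre (e : (Fin (m + 2) → K) ≃ₗ[K] (Fin (m + 2) → K))
    {C : Set (Submodule K (Fin (m + 2) → K))} (hC : IsNRC C) : ∃ C', IsNRC C' ∧ C = act e C' := by
  obtain ⟨g, rfl⟩ := hC
  refine ⟨curve (g.trans e.symm), ⟨_, rfl⟩, ?_⟩
  rw [act_curve]
  congr 1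
  ext v
  simp

/-- The normal rational curves through a set. -/
def through (S : Set (Submodule K (Fin (m + 2) → K))) :
    Set (Set (Submodule K (Fin (m + 2) → K))) := {C | IsNRC C ∧ S ⊆ C}

lemma through_act (e : (Fin (m + 2) → K) ≃ₗ[K] (Fin (m + 2) → K))
    (S : Set (Submodule K (Fin (m + 2) → K))) :
    through (act e S) = act e '' through S := by
  ext C
  constructor
  · rintro ⟨h1, h2⟩
    obtain ⟨C', h3, rfl⟩ := exists_pre e h1
    exact ⟨C', ⟨h3, (Set.image_subset_image_iff (map_inj e)).1 h2⟩, rfl⟩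
  · rintro ⟨C', ⟨⟨g, rfl⟩, h2⟩, rfl⟩
    refine ⟨⟨g.trans e, act_curve e g⟩, Set.image_mono h2⟩

lemma ncard_through_act (e : (Fin (m + 2) → K) ≃ₗ[K] (Fin (m + 2) → K))
    (S : Set (Submodule K (Fin (m + 2) → K))) :
    (through (act e S)).ncard = (through S).ncard := by
  rw [through_act]
  exact Set.ncard_image_of_injective _ (Set.image_injective.2 (map_inj e))

/-- The coordinate points. -/
def Ba : Set (Submodule K (Fin (m + 2) → K)) := Set.range fun i => pt (Pi.single i 1)

/-- The standard frame. -/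
def Fr : Set (Submodule K (Fin (m + 2) → K)) := insert (pt 1) Ba

/-- Normalised parameters. -/
def A (K : Type u) [Field K] (m : ℕ) : Set (Fin (m + 2) → K) :=
  {a | Function.Injective a ∧ a 0 = 0 ∧ a 1 = 1}

lemma D_affine (a : Fin (m + 2) → K) (α β : K) (hα : α ≠ 0) :
    D 1 (fun i => (a i - β) * α) = D 1 a := by
  have h1 : ∀ t, F (fun i => (a i - β) * α) ((t - β) * α) = α ^ (m + 1) • F a t := by
    intro t
    funext i
    simp only [F, Pi.smul_apply, smul_eq_mul]
    have h2 : ∀ j, (t - β) * α - (a j - β) * α = α * (t - a j) := fun j => by ring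
    simp only [h2]
    rw [Finset.prod_mul_distrib, Finset.prod_const]
    simp
  ext W
  simp only [D, Set.mem_ofPred_eq, one_mul]
  constructor
  · rintro (⟨t, rfl⟩ | h)
    · left
      refine ⟨t / α + β, ?_⟩
      have h3 := h1 (t / α + β)
      rw [add_sub_cancel_right, div_mul_cancel₀ _ hα] at h3
      rw [h3, pt_smul (pow_ne_zero _ hα)]
    · exact Or.inr h
  · rintro (⟨t, rfl⟩ | h)
    · left
      refine ⟨(t - β) * α, ?_⟩
      rw [h1, pt_smul (pow_ne_zero _ hα)]
    · exact Or.inr h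

lemma F_ne (a : Fin (m + 2) → K) {t : K} (ht : ∀ i, t ≠ a i) (i : Fin (m + 2)) : F a t i ≠ 0 :=
  Finset.prod_ne_zero_iff.2 fun j _ => sub_ne_zero.2 (ht j)

lemma pt_ne_single {c : Fin (m + 2) → K} (hc : ∀ i, c i ≠ 0) (i : Fin (m + 2)) :
    pt c ≠ pt (Pi.single i 1) := by
  intro h
  obtain ⟨d, -, hd⟩ := pt_eq h
  obtain ⟨j, hj⟩ : ∃ j : Fin (m + 2), j ≠ i := exists_ne i
  have := congrFun hd j
  rw [Pi.smul_apply, Pi.single_eq_of_ne hj, smul_zero] at this
  exact hc j this

lemma F_ne_one {a : Fin (m + 2) → K} (ha : Function.Injective a) {t : K} (ht : ∀ i, t ≠ a i) :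
    pt (F a t) ≠ pt 1 := by
  intro h
  obtain ⟨d, hd0, hd⟩ := pt_eq h
  have h1 : ∀ i, F a t i = d := fun i => by
    rw [hd]
    simp
  have h2 := mul_F a t 0
  have h3 := mul_F a t 1
  rw [h1] at h2 h3
  have h4 : t - a 0 = t - a 1 := mul_right_cancel₀ hd0 (h2.trans h3.symm)
  have h5 : a 0 = a 1 := by linear_combination -h4
  have := ha h5
  simp at this

lemma share {a a' : Fin (m + 2) → K} (ha : a ∈ A K m) (ha' : a' ∈ A K m)
    {W : Submodule K (Fin (m + 2) → K)} (h1 : W ∈ D 1 a) (h2 : W ∈ D 1 a') (h3 : W ∉ Fr) :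
    a = a' := by
  have hne1 : W ≠ pt 1 := fun h => h3 (Or.inl h)
  have hnes : ∀ i, W ≠ pt (Pi.single i 1) := fun i h => h3 (Or.inr ⟨i, h.symm⟩)
  have aux : ∀ b : Fin (m + 2) → K, Function.Injective b → W ∈ D 1 b →
      ∃ t, (∀ i, t ≠ b i) ∧ W = pt (F b t) := by
    intro b hb hW
    rcases hW with ⟨t, ht⟩ | h
    · rw [one_mul] at ht
      refine ⟨t, fun i hi => ?_, ht⟩
      obtain ⟨c, hc, hF⟩ := F_self b hb i
      rw [hi, hF, pt_smul hc] at ht
      exact hnes i ht
    · exact absurd h hne1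
  obtain ⟨t, ht, hW⟩ := aux a ha.1 h1
  obtain ⟨t', ht', hW'⟩ := aux a' ha'.1 h2
  obtain ⟨d, hd0, hd⟩ := pt_eq (hW.symm.trans hW')
  have e1 : ∀ i, (∏ j, (t - a j)) * (t' - a' i) = d * (t - a i) * ∏ j, (t' - a' j) := by
    intro i
    rw [← mul_F a t i, ← mul_F a' t' i, hd]
    simp only [Pi.smul_apply, smul_eq_mul]
    ring
  have hP : (∏ j, (t - a j)) ≠ 0 := Finset.prod_ne_zero_iff.2 fun j _ => sub_ne_zero.2 (ht j)
  have e2 := e1 0
  have e3 := e1 1
  rw [ha.2.1, ha'.2.1] at e2
  rw [ha.2.2, ha'.2.2] at e3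
  have e4 : (∏ j, (t - a j)) = d * ∏ j, (t' - a' j) := by linear_combination e2 - e3
  have e5 : t' = t := by
    have : (∏ j, (t - a j)) * (t' - t) = 0 := by
      linear_combination e2 - t * e4
    rcases mul_eq_zero.1 this with h | h
    · exact absurd h hP
    · exact sub_eq_zero.1 h
  funext i
  have e6 : (∏ j, (t - a j)) * (a i - a' i) = 0 := by
    have := e1 i
    rw [e5] at this e4
    linear_combination this - (t - a i) * e4
  rcases mul_eq_zero.1 e6 with h | h
  · exact absurd h hP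
  · exact sub_eq_zero.1 h

lemma mem_D_single {a : Fin (m + 2) → K} (ha : Function.Injective a) (i : Fin (m + 2)) :
    pt (Pi.single i 1) ∈ D 1 a := by
  obtain ⟨c, hc, h⟩ := F_self a ha i
  exact Or.inl ⟨a i, by rw [one_mul, h, pt_smul hc]⟩

lemma one_ne_single (i : Fin (m + 2)) : pt (1 : Fin (m + 2) → K) ≠ pt (Pi.single i 1) :=
  pt_ne_single (fun _ => one_ne_zero) i

lemma through_Fr [Fintype K] (hq : m + 2 ≤ Fintype.card K) :
    through (Fr : Set (Submodule K (Fin (m + 2) → K))) = (fun a => D 1 a) '' A K m := by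
  ext C
  constructor
  · rintro ⟨h1, h2⟩
    obtain ⟨c, hc, hP, a, ha, rfl⟩ := nrc_form hq h1 (fun i => h2 (Or.inr ⟨i, rfl⟩))
      (P := pt 1) (h2 (Or.inl rfl)) one_ne_single
    obtain ⟨d, hd0, hd⟩ := pt_eq hP.symm
    have hD : D c a = D 1 a := by
      have h3 : ∀ v : Fin (m + 2) → K, pt (c * v) = pt (1 * v) := by
        intro v
        rw [hd, smul_mul_assoc, pt_smul hd0]
      ext W
      simp only [D, Set.mem_ofPred_eq, h3, hP]
    have h01 : a 1 - a 0 ≠ 0 := sub_ne_zero.2 fun h => by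
      have := ha h
      simp at this
    refine ⟨fun i => (a i - a 0) * (a 1 - a 0)⁻¹, ⟨?_, ?_, ?_⟩, ?_⟩
    · intro i j hij
      exact ha (sub_left_injective (mul_right_cancel₀ (inv_ne_zero h01) hij))
    · simp
    · exact mul_inv_cancel₀ h01
    · exact (D_affine a _ _ (inv_ne_zero h01)).trans hD.symm
  · rintro ⟨a, ha, rfl⟩
    refine ⟨isNRC_D 1 a (fun _ => one_ne_zero) ha.1, ?_⟩
    rintro W (rfl | ⟨i, rfl⟩)
    · exact Or.inr rfl
    · exact mem_D_single ha.1 i

lemma D_injOn [Fintype K] (hq : m + 2 < Fintype.card K) :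
    Set.InjOn (fun a : Fin (m + 2) → K => D 1 a) (A K m) := by
  intro a ha a' ha' h
  obtain ⟨t, ht⟩ : ∃ t, ∀ i, t ≠ a i := by
    by_contra hcon
    push Not at hcon
    have hs : Function.Surjective a := fun t => by
      obtain ⟨i, hi⟩ := hcon t
      exact ⟨i, hi.symm⟩
    have := Fintype.card_le_of_surjective a hs
    simp at this
    omega
  have h1 : pt (F a t) ∈ D 1 a := Or.inl ⟨t, by rw [one_mul]⟩
  have h2 : pt (F a t) ∈ D 1 a' := by
    have h' : D 1 a = D 1 a' := h
    rw [← h']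
    exact h1
  refine share ha ha' h1 h2 ?_
  rintro (h3 | ⟨i, h3⟩)
  · exact F_ne_one ha.1 ht h3
  · exact pt_ne_single (F_ne a ht) i h3.symm

/-- Normalised parameters are injections into `K \ {0, 1}`. -/
noncomputable def equivA : A K m ≃ (Fin m ↪ {x : K // x ≠ 0 ∧ x ≠ 1}) where
  toFun a := ⟨fun j => ⟨a.1 j.succ.succ, by
      constructor
      · intro h
        have := a.2.1 (h.trans a.2.2.1.symm)
        exact absurd this (Fin.succ_ne_zero _)
      · intro h
        have := a.2.1 (h.trans a.2.2.2.symm)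
        rw [← Fin.succ_zero_eq_one] at this
        exact absurd (Fin.succ_injective _ this) (Fin.succ_ne_zero _)⟩, by
      intro i j hij
      have := a.2.1 (Subtype.ext_iff.1 hij)
      exact Fin.succ_injective _ (Fin.succ_injective _ this)⟩
  invFun f := ⟨Fin.cons 0 (Fin.cons 1 fun j => (f j).1), by
    refine ⟨?_, ?_, ?_⟩
    · rw [Fin.cons_injective_iff]
      refine ⟨?_, ?_⟩
      · rintro ⟨i, hi⟩
        refine Fin.cases ?_ (fun j hj => ?_) i hi
        · intro h
          simp at h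
        · simp only [Fin.cons_succ] at hj
          exact (f j).2.1 hj
      · rw [Fin.cons_injective_iff]
        refine ⟨?_, fun i j hij => f.injective (Subtype.ext hij)⟩
        rintro ⟨i, hi⟩
        exact (f i).2.2 hi
    · rfl
    · rfl⟩
  left_inv a := by
    apply Subtype.ext
    funext i
    refine Fin.cases ?_ (fun j => ?_) i
    · exact a.2.2.1.symm
    · refine Fin.cases ?_ (fun l => ?_) j
      · exact a.2.2.2.symm
      · rfl
  right_inv f := by
    ext j
    rfl

lemma card_A [Fintype K] : (A K m).ncard = (Fintype.card K - 2).descFactorial m := by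
  classical
  have h1 : Fintype.card {x : K // x ≠ 0 ∧ x ≠ 1} = Fintype.card K - 2 := by
    rw [Fintype.card_subtype]
    have : (Finset.univ.filter fun x : K => x ≠ 0 ∧ x ≠ 1) = ({0, 1} : Finset K)ᶜ := by
      ext x
      simp
    rw [this, Finset.card_compl, Finset.card_pair zero_ne_one]
  have h2 : (A K m).ncard = Nat.card (A K m) := rfl
  rw [h2, Nat.card_congr (equivA (K := K) (m := m)), Nat.card_eq_fintype_card,
    Fintype.card_embedding_eq, h1, Fintype.card_fin]

theorem count_Fr [Fintype K] (hq : m + 2 < Fintype.card K) :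
    (through (Fr : Set (Submodule K (Fin (m + 2) → K)))).ncard =
      (Fintype.card K - 2).descFactorial m := by
  rw [through_Fr hq.le, (D_injOn hq).ncard_image, card_A]

end Pool.Agent.H569R3.NRC
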