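import Pool.Agent.H569R3.NRC.Count

set_option autoImplicit false

open Polynomial

namespace Pool.Agent.H569R3.NRC

universe u

variable {K : Type u} [Field K] {m : ℕ}

lemma eq_pt {k : ℕ} {W : Submodule K (Fin k → K)} (hW : Module.finrank K W = 1) :
    ∃ v : Fin k → K, W = pt v := by
  obtain ⟨v, -, hv⟩ := finrank_eq_one_iff'.1 hW
  refine ⟨v.1, le_antisymm ?_ ?_⟩
  · intro w hw
    obtain ⟨c, hc⟩ := hv ⟨w, hw⟩
    have : w = c • v.1 := by
      rw [← Submodule.coe_smul, hc]
    rw [this]
    exact Submodule.smul_mem _ _ (mem_pt _)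
  · rw [pt, Submodule.span_singleton_le_iff_mem]
    exact v.2

lemma arc_top {S : Finset (Submodule K (Fin (m + 2) → K))} (hS : IsArc S)
    {T : Finset (Submodule K (Fin (m + 2) → K))} (hT : T ⊆ S) (hc : T.card = m + 2)
    (H : Submodule K (Fin (m + 2) → K)) (hH : ∀ W ∈ T, W ≤ H) : H = ⊤ := by
  classical
  rcases eq_top_or_exists_le_coatom H with h | ⟨H', h1, h2⟩
  · exact h
  · exfalso
    have h3 := hS.2 H' h1
    have h4 : T ⊆ S.filter (fun W => W ≤ H') := by
      intro W hW
      exact Finset.mem_filter.2 ⟨hT hW, (hH W hW).trans h2⟩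
    have h5 := Finset.card_le_card h4
    have h6 : (S.filter (fun W => W ≤ H')).card ≤ m + 2 - 1 := by
      convert h3
    omega

lemma exists_base {S : Finset (Submodule K (Fin (m + 2) → K))} (hS : IsArc S)
    {T : Finset (Submodule K (Fin (m + 2) → K))} (hT : T ⊆ S) (hc : T.card = m + 2) :
    ∃ e : (Fin (m + 2) → K) ≃ₗ[K] (Fin (m + 2) → K),
      act e Ba = (T : Set (Submodule K (Fin (m + 2) → K))) := by
  classical
  let f := T.equivFinOfCardEq hc
  have h1 : ∀ i, ∃ v : Fin (m + 2) → K, (f.symm i).1 = pt v := fun i =>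
    eq_pt (hS.1 _ (hT (f.symm i).2))
  choose v hv using h1
  have h2 : ⊤ ≤ Submodule.span K (Set.range v) := by
    refine (arc_top hS hT hc _ fun W hW => ?_).ge
    have h3 : W = pt (v (f ⟨W, hW⟩)) := by
      rw [← hv, Equiv.symm_apply_apply]
    rw [h3, pt, Submodule.span_singleton_le_iff_mem]
    exact Submodule.subset_span ⟨_, rfl⟩
  have h4 : Fintype.card (Fin (m + 2)) = Module.finrank K (Fin (m + 2) → K) := by
    rw [Module.finrank_fin_fun, Fintype.card_fin]
  let b := basisOfTopLeSpanOfCardEqFinrank v h2 h4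
  have h5 : ∀ i, b.equivFun.symm (Pi.single i 1) = v i := by
    intro i
    rw [Module.Basis.equivFun_symm_apply]
    rw [Finset.sum_eq_single i]
    · rw [Pi.single_eq_same, one_smul]
      exact congrFun (coe_basisOfTopLeSpanOfCardEqFinrank v h2 h4) i
    · intro j _ hj
      rw [Pi.single_eq_of_ne hj, zero_smul]
    · simp
  refine ⟨b.equivFun.symm, ?_⟩
  ext W
  constructor
  · rintro ⟨_, ⟨i, rfl⟩, rfl⟩
    change Submodule.map b.equivFun.symm.toLinearMap (pt (Pi.single i 1)) ∈ _
    rw [map_pt, h5, ← hv]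
    exact (f.symm i).2
  · intro hW
    refine ⟨pt (Pi.single (f ⟨W, hW⟩) 1), ⟨_, rfl⟩, ?_⟩
    rw [map_pt, h5, ← hv, Equiv.symm_apply_apply]

lemma exists_frame {S : Finset (Submodule K (Fin (m + 2) → K))} (hS : IsArc S)
    {T : Finset (Submodule K (Fin (m + 2) → K))} (hT : T ⊆ S) (hc : T.card = m + 2)
    {P : Submodule K (Fin (m + 2) → K)} (hP : P ∈ S) (hPT : P ∉ T) :
    ∃ e : (Fin (m + 2) → K) ≃ₗ[K] (Fin (m + 2) → K),
      act e Fr = insert P (T : Set (Submodule K (Fin (m + 2) → K))) := by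
  classical
  obtain ⟨e, he⟩ := exists_base hS hT hc
  obtain ⟨u, hu⟩ := eq_pt (hS.1 P hP)
  have hmem : ∀ i, pt (e (Pi.single i 1)) ∈ T := by
    intro i
    have : pt (e (Pi.single i 1)) ∈ act e Ba := ⟨_, ⟨i, rfl⟩, map_pt _ _⟩
    rw [he] at this
    exact this
  have hinj : Function.Injective (fun i : Fin (m + 2) => pt (e (Pi.single i 1))) := by
    intro i j hij
    by_contra hne
    refine single_ne (K := K) hne (map_inj e ?_)
    rw [map_pt, map_pt]
    exact hij
  have hne : ∀ i, e.symm u i ≠ 0 := by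
    intro i hi
    have h1 := arc_top hS (T := insert P ((Finset.univ.erase i).image
      (fun i : Fin (m + 2) => pt (e (Pi.single i 1))))) ?_ ?_
      (LinearMap.ker ((LinearMap.proj i).comp e.symm.toLinearMap)) ?_
    · have h2 : e (Pi.single i 1) ∈ LinearMap.ker ((LinearMap.proj i).comp
          e.symm.toLinearMap : (Fin (m + 2) → K) →ₗ[K] K) := h1 ▸ Submodule.mem_top
      rw [LinearMap.mem_ker] at h2
      have h3 : ((LinearMap.proj i).comp e.symm.toLinearMap : (Fin (m + 2) → K) →ₗ[K] K)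
        (e (Pi.single i 1)) = e.symm (e (Pi.single i 1)) i := rfl
      rw [h3, LinearEquiv.symm_apply_apply] at h2
      simp at h2
    · refine Finset.insert_subset hP ?_
      intro W hW
      obtain ⟨j, -, rfl⟩ := Finset.mem_image.1 hW
      exact hT (hmem j)
    · rw [Finset.card_insert_of_notMem, Finset.card_image_of_injective _ hinj]
      · simp
      · intro hW
        obtain ⟨j, -, hj⟩ := Finset.mem_image.1 hW
        exact hPT (hj ▸ hmem j)
    · intro W hW
      rcases Finset.mem_insert.1 hW with rfl | hW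
      · rw [hu, pt, Submodule.span_singleton_le_iff_mem, LinearMap.mem_ker]
        exact hi
      · obtain ⟨j, hj, rfl⟩ := Finset.mem_image.1 hW
        rw [pt, Submodule.span_singleton_le_iff_mem, LinearMap.mem_ker]
        change e.symm (e (Pi.single j 1)) i = 0
        rw [LinearEquiv.symm_apply_apply, Pi.single_eq_of_ne]
        exact (Finset.mem_erase.1 hj).1.symm
  refine ⟨(diagE (e.symm u) hne).trans e, ?_⟩
  have h1 : act ((diagE (e.symm u) hne).trans e) Fr = act e (act (diagE (e.symm u) hne) Fr) := by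
    rw [act, act, act, ← Set.image_comp]
    congr 1
    funext W
    exact Submodule.map_comp _ _ W
  rw [h1, act_diag_Fr, act, Set.image_insert_eq, map_pt, LinearEquiv.apply_symm_apply, ← hu]
  congr 1

theorem unique_of_large [Fintype K] (hq : m + 2 < Fintype.card K)
    {S : Finset (Submodule K (Fin (m + 2) → K))} (hS : IsArc S) (hc : m + 4 ≤ S.card)
    {C C' : Set (Submodule K (Fin (m + 2) → K))}
    (h : C ∈ through (S : Set (Submodule K (Fin (m + 2) → K))))
    (h' : C' ∈ through (S : Set (Submodule K (Fin (m + 2) → K)))) : C = C' := by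
  classical
  obtain ⟨T', hT', hcT'⟩ := Finset.exists_subset_card_eq (s := S) (n := m + 3) (by omega)
  obtain ⟨T, hT, hcT⟩ := Finset.exists_subset_card_eq (s := T') (n := m + 2) (by omega)
  obtain ⟨P, hP, hPT⟩ := Finset.exists_mem_notMem_of_card_lt_card (s := T) (t := T') (by omega)
  obtain ⟨X, hX, hXT⟩ := Finset.exists_mem_notMem_of_card_lt_card (s := T') (t := S) (by omega)
  obtain ⟨e, he⟩ := exists_frame hS (hT.trans hT') hcT (hT' hP) hPT
  have hsub : act e Fr ⊆ (T' : Set (Submodule K (Fin (m + 2) → K))) := by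
    rw [he]
    exact Set.insert_subset hP (Finset.coe_subset.2 hT)
  obtain ⟨C1, h1, rfl⟩ := exists_pre e h.1
  obtain ⟨C1', h1', rfl⟩ := exists_pre e h'.1
  have hF : ∀ {B : Set (Submodule K (Fin (m + 2) → K))},
      (S : Set (Submodule K (Fin (m + 2) → K))) ⊆ act e B → Fr ⊆ B := fun hB =>
    (Set.image_subset_image_iff (map_inj e)).1
      ((hsub.trans (Finset.coe_subset.2 hT')).trans hB)
  have h2 : C1 ∈ through (Fr : Set (Submodule K (Fin (m + 2) → K))) := ⟨h1, hF h.2⟩
  have h2' : C1' ∈ through (Fr : Set (Submodule K (Fin (m + 2) → K))) := ⟨h1', hF h'.2⟩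
  rw [through_Fr hq.le] at h2 h2'
  obtain ⟨a, ha, rfl⟩ := h2
  obtain ⟨a', ha', rfl⟩ := h2'
  obtain ⟨X1, hX1, hX1e⟩ := h.2 (Finset.mem_coe.2 hX)
  obtain ⟨X2, hX2, hX2e⟩ := h'.2 (Finset.mem_coe.2 hX)
  have h3 : X2 = X1 := map_inj e (hX2e.trans hX1e.symm)
  rw [h3] at hX2
  have h4 : X1 ∉ Fr := fun h5 => hXT (hsub ⟨X1, h5, hX1e⟩)
  rw [share ha ha' hX1 hX2 h4]

theorem main [Fintype K] (hq : m + 2 < Fintype.card K)
    (S : Finset (Submodule K (Fin (m + 2) → K))) (hS : IsArc S) :
    (S.card = m + 2 → (through (S : Set (Submodule K (Fin (m + 2) → K)))).ncard =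
      (Fintype.card K - 1) ^ m * (Fintype.card K - 1).descFactorial m) ∧
    (S.card = m + 3 → (through (S : Set (Submodule K (Fin (m + 2) → K)))).ncard =
      (Fintype.card K - 2).descFactorial m) ∧
    (m + 4 ≤ S.card → (∃ C, C ∈ through (S : Set (Submodule K (Fin (m + 2) → K)))) →
      (through (S : Set (Submodule K (Fin (m + 2) → K)))).ncard = 1) := by
  classical
  refine ⟨fun hc => ?_, fun hc => ?_, fun hc hex => ?_⟩
  · obtain ⟨e, he⟩ := exists_base hS (Finset.Subset.refl S) hc
    rw [← he, ncard_through_act, count_Ba hq]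
  · obtain ⟨T, hT, hcT⟩ := Finset.exists_subset_card_eq (s := S) (n := m + 2) (by omega)
    obtain ⟨P, hP, hPT⟩ := Finset.exists_mem_notMem_of_card_lt_card (s := T) (t := S) (by omega)
    obtain ⟨e, he⟩ := exists_frame hS hT hcT hP hPT
    have h1 : insert P (T : Set (Submodule K (Fin (m + 2) → K))) =
        (S : Set (Submodule K (Fin (m + 2) → K))) := by
      rw [← Finset.coe_insert]
      congr 1
      refine Finset.eq_of_subset_of_card_le (Finset.insert_subset hP hT) ?_
      rw [Finset.card_insert_of_notMem hPT]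
      omega
    rw [← h1, ← he, ncard_through_act, count_Fr hq]
  · obtain ⟨C, hC⟩ := hex
    rw [Set.ncard_eq_one]
    refine ⟨C, ?_⟩
    ext C'
    constructor
    · intro h
      exact unique_of_large hq hS hc h hC
    · rintro rfl
      exact hC

end Pool.Agent.H569R3.NRC
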