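import Pool.Agent.H569R3.NRC.Thresh2

set_option autoImplicit false

open Polynomial

namespace Pool.Agent.H569R3.NRC

universe u

variable {K : Type u} [Field K] {m : ℕ}

theorem odd_bound [Fintype K] (hodd : Odd (Fintype.card K)) (hm : 1 ≤ m) {n : ℕ}
    (hn : m + 5 ≤ n) (hn2 : n ≤ (Fintype.card K + 3) / 2) :
    ∃ S : Finset (Submodule K (Fin (m + 2) → K)), IsArc S ∧ S.card = n ∧
      ¬ ∃ C : Set (Submodule K (Fin (m + 2) → K)), IsNRC C ∧ ∀ P ∈ S, P ∈ C := by
  classical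
  have hchar : ringChar K ≠ 2 := by
    intro h
    have h1 := (FiniteField.even_card_iff_char_two (F := K)).1 h
    obtain ⟨r, hr⟩ := hodd
    omega
  obtain ⟨ν, hν⟩ := FiniteField.exists_nonsquare hchar
  have hsq := card_squares (K := K) hodd
  have hle : n - 1 ≤ ((Finset.univ : Finset K).image fun x => x * x).card := by
    obtain ⟨r, hr⟩ := hodd
    omega
  obtain ⟨T, hT, hTc⟩ := Finset.exists_subset_card_eq hle
  have hl : (-1 : K) ^ m * ν ≠ 0 := by
    refine mul_ne_zero (pow_ne_zero _ (neg_ne_zero.2 one_ne_zero)) fun h => hν ?_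
    rw [h]
    exact ⟨0, by simp⟩
  have hTR : ∀ R ⊆ T, R.card = m + 1 → (-1 : K) ^ m * ν ≠ (-1) ^ m * ∏ t ∈ R, t := by
    intro R hR _ h
    have h1 : ν = ∏ t ∈ R, t :=
      mul_left_cancel₀ (pow_ne_zero _ (neg_ne_zero.2 one_ne_zero)) h
    refine hν ?_
    rw [h1]
    refine Finset.isSquare_prod _ fun t ht => ?_
    obtain ⟨x, -, hx⟩ := Finset.mem_image.1 (hT (hR ht))
    exact ⟨x, hx.symm⟩
  refine ⟨xarc ((-1 : K) ^ m * ν) T, xarc_isArc hTR, by rw [xarc_card hm hl]; omega, ?_⟩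
  exact xarc_not (by omega) hm hl hTR (by omega)

end Pool.Agent.H569R3.NRC
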