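import Pool.Agent.H569R3.NRC.Main

set_option autoImplicit false

open Polynomial

namespace Pool.Agent.H569R3.NRC

universe u

variable {K : Type u} [Field K] {m : ℕ}

/-- The polynomial of a functional along the standard curve. -/
noncomputable def fpoly (φ : (Fin (m + 2) → K) →ₗ[K] K) : K[X] :=
  ∑ j : Fin (m + 2), C (φ (Pi.single j 1)) * X ^ (m + 1 - (j : ℕ))

lemma fpoly_eval (φ : (Fin (m + 2) → K) →ₗ[K] K) (t : K) :
    (fpoly φ).eval t = φ (ver (m + 2) t) := by
  rw [ver_eq_sum, map_sum, fpoly, Polynomial.eval_finsetSum]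
  refine Finset.sum_congr rfl fun j _ => ?_
  rw [map_smul, smul_eq_mul, Polynomial.eval_mul, Polynomial.eval_C,
    Polynomial.eval_pow, Polynomial.eval_X, mul_comm]

lemma fpoly_coeff_gt (φ : (Fin (m + 2) → K) →ₗ[K] K) {n : ℕ}
    (hn : m + 1 < n) : (fpoly φ).coeff n = 0 := by
  rw [fpoly, Polynomial.finsetSum_coeff]
  refine Finset.sum_eq_zero fun j _ => ?_
  rw [Polynomial.coeff_C_mul_X_pow, if_neg (by omega)]

lemma fpoly_coeff (φ : (Fin (m + 2) → K) →ₗ[K] K) (i : Fin (m + 2)) :
    (fpoly φ).coeff (m + 1 - (i : ℕ)) = φ (Pi.single i 1) := by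
  rw [fpoly, Polynomial.finsetSum_coeff, Finset.sum_eq_single i]
  · simp
  · intro j _ hj
    have : (j : ℕ) ≠ i := fun h => hj (Fin.ext h)
    rw [Polynomial.coeff_C_mul_X_pow, if_neg (by omega)]
  · simp

lemma fpoly_eq_zero (φ : (Fin (m + 2) → K) →ₗ[K] K) (h : fpoly φ = 0) : φ = 0 := by
  refine LinearMap.pi_ext' fun i => ?_
  ext
  have := fpoly_coeff φ i
  rw [h, Polynomial.coeff_zero] at this
  simpa using this.symm

lemma fpoly_roots (φ : (Fin (m + 2) → K) →ₗ[K] K) (hφ : φ ≠ 0) (R : Finset K)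
    (hR : ∀ t ∈ R, φ (ver (m + 2) t) = 0) : R.card ≤ m + 1 := by
  by_contra hcon
  push Not at hcon
  refine hφ (fpoly_eq_zero φ ?_)
  refine Polynomial.eq_zero_of_degree_lt_of_eval_finset_eq_zero R ?_ fun t ht => ?_
  · rw [Polynomial.degree_lt_iff_coeff_zero]
    intro n hn
    exact fpoly_coeff_gt φ (by omega)
  · rw [fpoly_eval, hR t ht]

/-- The additional point. -/
def xtra (l : K) : Fin (m + 2) → K := l • Pi.single 0 1 + Pi.single (Fin.last (m + 1)) 1

lemma fpoly_xtra (φ : (Fin (m + 2) → K) →ₗ[K] K) (hφ : φ ≠ 0) (l : K) (R : Finset K)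
    (hR : ∀ t ∈ R, φ (ver (m + 2) t) = 0) (hc : R.card = m + 1) (hx : φ (xtra l) = 0) :
    l = (-1) ^ m * ∏ t ∈ R, t := by
  have hP : fpoly φ = C (φ (Pi.single 0 1)) * ∏ t ∈ R, (X - C t) := by
    rw [← sub_eq_zero]
    have hmon : (∏ t ∈ R, (X - C t)).Monic :=
      Polynomial.monic_prod_of_monic _ _ fun j _ => Polynomial.monic_X_sub_C _
    have hdeg : (∏ t ∈ R, (X - C t)).natDegree = m + 1 := by
      rw [Polynomial.natDegree_prod_of_monic _ _ fun j _ => Polynomial.monic_X_sub_C _]
      simp [hc]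
    refine Polynomial.eq_zero_of_degree_lt_of_eval_finset_eq_zero R ?_ fun t ht => ?_
    · rw [hc, Polynomial.degree_lt_iff_coeff_zero]
      intro n hn
      rcases Nat.lt_or_ge (m + 1) n with h1 | h1
      · rw [Polynomial.coeff_sub, fpoly_coeff_gt _ h1, Polynomial.coeff_C_mul,
          Polynomial.coeff_eq_zero_of_natDegree_lt (by rw [hdeg]; exact h1)]
        simp
      · have h2 : n = m + 1 := le_antisymm h1 hn
        subst h2
        have h3 := fpoly_coeff φ 0
        have h4 := hmon.coeff_natDegree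
        rw [hdeg] at h4
        simp only [Fin.val_zero, Nat.sub_zero] at h3
        rw [Polynomial.coeff_sub, h3, Polynomial.coeff_C_mul, h4]
        simp
    · rw [Polynomial.eval_sub, fpoly_eval, hR t ht, Polynomial.eval_mul, Polynomial.eval_prod,
        Finset.prod_eq_zero ht (by simp)]
      simp
  have h0 : φ (Pi.single 0 1) ≠ 0 := by
    intro h
    rw [h] at hP
    exact hφ (fpoly_eq_zero φ (by rw [hP]; simp))
  have h1 := fpoly_coeff φ (Fin.last (m + 1))
  have h2 : m + 1 - ((Fin.last (m + 1) : Fin (m + 2)) : ℕ) = 0 := by simp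
  rw [h2, Polynomial.coeff_zero_eq_eval_zero, hP, Polynomial.eval_mul, Polynomial.eval_C,
    Polynomial.eval_prod] at h1
  simp only [Polynomial.eval_sub, Polynomial.eval_X, Polynomial.eval_C, zero_sub] at h1
  rw [Finset.prod_neg, hc] at h1
  rw [xtra, map_add, map_smul, smul_eq_mul, ← h1] at hx
  have h3 : φ (Pi.single 0 1) * (l + (-1) ^ (m + 1) * ∏ t ∈ R, t) = 0 := by
    linear_combination hx
  rcases mul_eq_zero.1 h3 with h | h
  · exact absurd h h0
  · rw [pow_succ] at h
    linear_combination h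

lemma ver_ne (t : K) : ver (m + 2) t ≠ 0 := fun h => by
  have := congrFun h (Fin.last (m + 1))
  rw [ver_last] at this
  simp at this

lemma xtra_last (l : K) : xtra (m := m) l (Fin.last (m + 1)) = 1 := by
  have : (Fin.last (m + 1) : Fin (m + 2)) ≠ 0 := by
    intro h
    have := congrArg Fin.val h
    simp at this
  simp [xtra, Pi.single_eq_of_ne this]

lemma ver_pt_inj : Function.Injective (fun t : K => pt (ver (m + 2) t)) := by
  intro s t h
  have := par_inj (m := m) (LinearEquiv.refl K (Fin (m + 2) → K)) (a₁ := some s) (a₂ := some t) h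
  exact Option.some.inj this

lemma xtra_notMem (hm : 1 ≤ m) {l : K} (hl : l ≠ 0) :
    pt (xtra (m := m) l) ∉ curve (LinearEquiv.refl K (Fin (m + 2) → K)) := by
  rintro (⟨t, h⟩ | h)
  · obtain ⟨c, hc, h1⟩ := pt_eq h
    rw [LinearEquiv.refl_apply] at h1
    have h2 := congrFun h1 ⟨m, by omega⟩
    rw [Pi.smul_apply, ver_pen, smul_eq_mul] at h2
    have h3 : xtra (m := m) l ⟨m, by omega⟩ = 0 := by
      have e1 : (⟨m, by omega⟩ : Fin (m + 2)) ≠ 0 := by
        intro h
        have := congrArg Fin.val h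
        simp at this
        omega
      have e2 : (⟨m, by omega⟩ : Fin (m + 2)) ≠ Fin.last (m + 1) := by
        intro h
        have := congrArg Fin.val h
        simp at this
      simp [xtra, Pi.single_eq_of_ne e1, Pi.single_eq_of_ne e2]
    rw [h3] at h2
    have h4 : t = 0 := by
      rcases mul_eq_zero.1 h2.symm with h | h
      · exact absurd h hc
      · exact h
    have h5 := congrFun h1 0
    have e3 : (0 : Fin (m + 2)) ≠ Fin.last (m + 1) := by
      intro h
      have := congrArg Fin.val h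
      simp at this
    rw [Pi.smul_apply, h4] at h5
    simp [xtra, Pi.single_eq_of_ne e3, ver] at h5
    exact hl h5
  · obtain ⟨c, hc, h1⟩ := pt_eq h
    rw [LinearEquiv.refl_apply] at h1
    have h2 := congrFun h1 (Fin.last (m + 1))
    rw [Pi.smul_apply, inf_last, xtra_last] at h2
    simp at h2

end Pool.Agent.H569R3.NRC
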