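import Pool.Agent.H569R3.NRC.Thresh

set_option autoImplicit false

open Polynomial

namespace Pool.Agent.H569R3.NRC

universe u

variable {K : Type u} [Field K] {m : ℕ}

lemma IsArc.mono {k : ℕ} {S S' : Finset (Submodule K (Fin k → K))} (hS : IsArc S) (h : S' ⊆ S) :
    IsArc S' := by
  classical
  refine ⟨fun W hW => hS.1 W (h hW), fun H hH => ?_⟩
  refine le_trans (Finset.card_le_card ?_) (hS.2 H hH)
  exact Finset.filter_subset_filter _ h

open Classical in
/-- The additional point together with the points of the curve with parameters in `T`. -/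
noncomputable def xarc (l : K) (T : Finset K) : Finset (Submodule K (Fin (m + 2) → K)) :=
  insert (pt (xtra l)) (T.image fun t => pt (ver (m + 2) t))

lemma finrank_pt {k : ℕ} {v : Fin k → K} (hv : v ≠ 0) : Module.finrank K (pt v) = 1 :=
  finrank_span_singleton hv

lemma xarc_isArc {l : K} {T : Finset K}
    (hT : ∀ R ⊆ T, R.card = m + 1 → l ≠ (-1) ^ m * ∏ t ∈ R, t) :
    IsArc (xarc (m := m) l T) := by
  classical
  refine ⟨fun W hW => ?_, fun H hH => ?_⟩
  · rcases Finset.mem_insert.1 hW with rfl | hW
    · refine finrank_pt fun h => ?_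
      have := congrFun h (Fin.last (m + 1))
      rw [xtra_last] at this
      simp at this
    · obtain ⟨t, -, rfl⟩ := Finset.mem_image.1 hW
      exact finrank_pt (ver_ne t)
  · obtain ⟨φ, hφ, hle⟩ := Submodule.exists_le_ker_of_lt_top H hH.lt_top
    set R := T.filter (fun t => φ (ver (m + 2) t) = 0) with hR
    have hRc : R.card ≤ m + 1 := fpoly_roots φ hφ R fun t ht => (Finset.mem_filter.1 ht).2
    have hk : ∀ v : Fin (m + 2) → K, pt v ≤ H → φ v = 0 := fun v hv =>
      LinearMap.mem_ker.1 (hle (hv (mem_pt v)))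
    by_cases hP : pt (xtra l) ≤ H
    · have h1 : R.card ≠ m + 1 := fun hc => hT R (Finset.filter_subset _ _) hc
        (fpoly_xtra φ hφ l R (fun t ht => (Finset.mem_filter.1 ht).2) hc (hk _ hP))
      refine (Finset.card_le_card (t := insert (pt (xtra l))
        (R.image fun t => pt (ver (m + 2) t))) ?_).trans
        ((Finset.card_insert_le _ _).trans ?_)
      · intro W hW
        obtain ⟨hW1, hW2⟩ := Finset.mem_filter.1 hW
        rcases Finset.mem_insert.1 hW1 with rfl | hW1
        · exact Finset.mem_insert_self _ _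
        · obtain ⟨t, ht, rfl⟩ := Finset.mem_image.1 hW1
          exact Finset.mem_insert_of_mem (Finset.mem_image_of_mem _
            (Finset.mem_filter.2 ⟨ht, hk _ hW2⟩))
      · have := Finset.card_image_le (s := R) (f := fun t => pt (ver (m + 2) t))
        omega
    · refine (Finset.card_le_card (t := R.image fun t => pt (ver (m + 2) t)) ?_).trans ?_
      · intro W hW
        obtain ⟨hW1, hW2⟩ := Finset.mem_filter.1 hW
        rcases Finset.mem_insert.1 hW1 with rfl | hW1
        · exact absurd hW2 hP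
        · obtain ⟨t, ht, rfl⟩ := Finset.mem_image.1 hW1
          exact Finset.mem_image_of_mem _ (Finset.mem_filter.2 ⟨ht, hk _ hW2⟩)
      · have := Finset.card_image_le (s := R) (f := fun t => pt (ver (m + 2) t))
        omega

lemma xtra_notMem_image (hm : 1 ≤ m) {l : K} (hl : l ≠ 0) (T : Finset K) :
    ∀ t ∈ T, pt (xtra (m := m) l) ≠ pt (ver (m + 2) t) := fun t _ h =>
  xtra_notMem hm hl (Or.inl ⟨t, h⟩)

lemma xarc_card (hm : 1 ≤ m) {l : K} (hl : l ≠ 0) (T : Finset K) :
    (xarc (m := m) l T).card = T.card + 1 := by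
  classical
  rw [xarc, Finset.card_insert_of_notMem, Finset.card_image_of_injective _ ver_pt_inj]
  intro h
  obtain ⟨t, ht, h⟩ := Finset.mem_image.1 h
  exact xtra_notMem_image hm hl T t ht h.symm

lemma xarc_not [Fintype K] (hq : m + 2 < Fintype.card K) (hm : 1 ≤ m) {l : K} (hl : l ≠ 0)
    {T : Finset K} (hT : ∀ R ⊆ T, R.card = m + 1 → l ≠ (-1) ^ m * ∏ t ∈ R, t)
    (hc : m + 4 ≤ T.card) :
    ¬ ∃ C : Set (Submodule K (Fin (m + 2) → K)), IsNRC C ∧ ∀ P ∈ xarc l T, P ∈ C := by
  classical
  rintro ⟨C, hC, h⟩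
  have hS : IsArc (T.image fun t => pt (ver (m + 2) t)) :=
    (xarc_isArc hT).mono (Finset.subset_insert _ _)
  have h1 : C = curve (LinearEquiv.refl K (Fin (m + 2) → K)) := by
    refine unique_of_large hq hS ?_ ⟨hC, ?_⟩ ⟨⟨_, rfl⟩, ?_⟩
    · rw [Finset.card_image_of_injective _ ver_pt_inj]
      exact hc
    · intro W hW
      exact h W (Finset.mem_insert_of_mem (Finset.mem_coe.1 hW))
    · intro W hW
      obtain ⟨t, -, rfl⟩ := Finset.mem_image.1 (Finset.mem_coe.1 hW)
      exact Or.inl ⟨t, rfl⟩
  refine xtra_notMem hm hl ?_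
  rw [← h1]
  exact h _ (Finset.mem_insert_self _ _)

/-- Every `n`-arc lies on a normal rational curve. -/
def AllOn (K : Type u) [Field K] (k n : ℕ) : Prop :=
  ∀ S : Finset (Submodule K (Fin k → K)), IsArc S → S.card = n →
    ∃ C : Set (Submodule K (Fin k → K)), IsNRC C ∧ ∀ P ∈ S, P ∈ C

lemma upset [Fintype K] (hq : m + 2 < Fintype.card K) {n : ℕ} (hn : m + 5 ≤ n)
    (hA : AllOn K (m + 2) n) : AllOn K (m + 2) (n + 1) := by
  classical
  intro S hS hc
  obtain ⟨x, hx⟩ : S.Nonempty := Finset.card_pos.1 (by omega)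
  have hT : (S.erase x).card = n := by rw [Finset.card_erase_of_mem hx]; omega
  obtain ⟨y, hy⟩ : (S.erase x).Nonempty := Finset.card_pos.1 (by omega)
  have hyS := Finset.mem_of_mem_erase hy
  have hyx : y ≠ x := (Finset.mem_erase.1 hy).1
  have hT2 : (S.erase y).card = n := by rw [Finset.card_erase_of_mem hyS]; omega
  obtain ⟨C, hC, hCs⟩ := hA _ (hS.mono (Finset.erase_subset _ _)) hT
  obtain ⟨C2, hC2, hC2s⟩ := hA _ (hS.mono (Finset.erase_subset _ _)) hT2
  have hU : ((S.erase x).erase y).card = n - 1 := Finset.card_erase_of_mem hy |>.trans (by omega)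
  have h1 : C = C2 := by
    refine unique_of_large hq (S := (S.erase x).erase y)
      (hS.mono ((Finset.erase_subset _ _).trans (Finset.erase_subset _ _))) (by omega)
      ⟨hC, fun W hW => ?_⟩ ⟨hC2, fun W hW => ?_⟩
    · exact hCs W (Finset.mem_of_mem_erase (Finset.mem_coe.1 hW))
    · have h2 := Finset.mem_erase.1 (Finset.mem_coe.1 hW)
      exact hC2s W (Finset.mem_erase.2 ⟨h2.1, Finset.mem_of_mem_erase h2.2⟩)
  refine ⟨C, hC, fun P hP => ?_⟩
  by_cases hPx : P = x
  · rw [h1, hPx]
    exact hC2s x (Finset.mem_erase.2 ⟨hyx.symm, hx⟩)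
  · exact hCs P (Finset.mem_erase.2 ⟨hPx, hP⟩)

lemma allOn_two [Fintype K] (hq : m + 2 < Fintype.card K) : AllOn K (m + 2) (m + 4) := by
  classical
  intro S hS hc
  obtain ⟨T', hT', hcT'⟩ := Finset.exists_subset_card_eq (s := S) (n := m + 3) (by omega)
  obtain ⟨T, hT, hcT⟩ := Finset.exists_subset_card_eq (s := T') (n := m + 2) (by omega)
  obtain ⟨P, hP, hPT⟩ := Finset.exists_mem_notMem_of_card_lt_card (s := T) (t := T') (by omega)
  obtain ⟨X, hX, hXT⟩ := Finset.exists_mem_notMem_of_card_lt_card (s := T') (t := S) (by omega)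
  obtain ⟨e, he⟩ := exists_frame hS (hT.trans hT') hcT (hT' hP) hPT
  have heq' : (insert P T : Finset (Submodule K (Fin (m + 2) → K))) = T' :=
    Finset.eq_of_subset_of_card_le (Finset.insert_subset hP hT)
      (by rw [Finset.card_insert_of_notMem hPT]; omega)
  have heq : act e Fr = (T' : Set (Submodule K (Fin (m + 2) → K))) := by
    rw [he, ← heq', Finset.coe_insert]
  have hS' : S = insert X T' := by
    refine (Finset.eq_of_subset_of_card_le (Finset.insert_subset hX hT') ?_).symm
    rw [Finset.card_insert_of_notMem hXT]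
    omega
  obtain ⟨x, hx⟩ := eq_pt (hS.1 X hX)
  have hmem : ∀ i, pt (e (Pi.single i 1)) ∈ T' := by
    intro i
    have : pt (e (Pi.single i 1)) ∈ act e Fr := ⟨_, Or.inr ⟨i, rfl⟩, map_pt _ _⟩
    rw [heq] at this
    exact this
  have hmem1 : pt (e 1) ∈ T' := by
    have : pt (e 1) ∈ act e Fr := ⟨_, Or.inl rfl, map_pt _ _⟩
    rw [heq] at this
    exact this
  have hinj : Function.Injective (fun i : Fin (m + 2) => pt (e (Pi.single i 1))) := by
    intro i j hij
    by_contra hne
    refine single_ne (K := K) hne (map_inj e ?_)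
    rw [map_pt, map_pt]
    exact hij
  have hone : ∀ i, pt (e 1) ≠ pt (e (Pi.single i 1)) := by
    intro i h
    refine one_ne_single (K := K) i (map_inj e ?_)
    rw [map_pt, map_pt]
    exact h
  have hw : ∀ i, e.symm x i ≠ 0 := by
    intro i hi
    have h1 := arc_top hS (T := insert X ((Finset.univ.erase i).image
      (fun i : Fin (m + 2) => pt (e (Pi.single i 1))))) ?_ ?_
      (LinearMap.ker ((LinearMap.proj i).comp e.symm.toLinearMap)) ?_
    · have h2 : e (Pi.single i 1) ∈ LinearMap.ker ((LinearMap.proj i).comp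
          e.symm.toLinearMap : (Fin (m + 2) → K) →ₗ[K] K) := h1 ▸ Submodule.mem_top
      rw [LinearMap.mem_ker] at h2
      have h3 : ((LinearMap.proj i).comp e.symm.toLinearMap : (Fin (m + 2) → K) →ₗ[K] K)
        (e (Pi.single i 1)) = e.symm (e (Pi.single i 1)) i := rfl
      rw [h3, LinearEquiv.symm_apply_apply] at h2
      simp at h2
    · refine Finset.insert_subset hX ?_
      intro W hW
      obtain ⟨j, -, rfl⟩ := Finset.mem_image.1 hW
      exact hT' (hmem j)
    · rw [Finset.card_insert_of_notMem, Finset.card_image_of_injective _ hinj]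
      · simp
      · intro hW
        obtain ⟨j, -, hj⟩ := Finset.mem_image.1 hW
        exact hXT (hj ▸ hmem j)
    · intro W hW
      rcases Finset.mem_insert.1 hW with rfl | hW
      · rw [hx, pt, Submodule.span_singleton_le_iff_mem, LinearMap.mem_ker]
        exact hi
      · obtain ⟨j, hj, rfl⟩ := Finset.mem_image.1 hW
        rw [pt, Submodule.span_singleton_le_iff_mem, LinearMap.mem_ker]
        change e.symm (e (Pi.single j 1)) i = 0
        rw [LinearEquiv.symm_apply_apply, Pi.single_eq_of_ne]
        exact (Finset.mem_erase.1 hj).1.symm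
  have hww : ∀ i j, i ≠ j → e.symm x i ≠ e.symm x j := by
    intro i j hij hi
    have h1 := arc_top hS (T := insert X (insert (pt (e 1)) (((Finset.univ.erase i).erase j).image
      (fun i : Fin (m + 2) => pt (e (Pi.single i 1)))))) ?_ ?_
      (LinearMap.ker (((LinearMap.proj i : (Fin (m + 2) → K) →ₗ[K] K) - LinearMap.proj j).comp
        e.symm.toLinearMap)) ?_
    · have h2 : e (Pi.single i 1) ∈ LinearMap.ker
          (((LinearMap.proj i : (Fin (m + 2) → K) →ₗ[K] K) - LinearMap.proj j).comp
          e.symm.toLinearMap : (Fin (m + 2) → K) →ₗ[K] K) := h1 ▸ Submodule.mem_top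
      rw [LinearMap.mem_ker] at h2
      have h3 : (((LinearMap.proj i : (Fin (m + 2) → K) →ₗ[K] K) - LinearMap.proj j).comp
          e.symm.toLinearMap : (Fin (m + 2) → K) →ₗ[K] K) (e (Pi.single i 1)) =
          e.symm (e (Pi.single i 1)) i - e.symm (e (Pi.single i 1)) j := rfl
      rw [h3, LinearEquiv.symm_apply_apply, Pi.single_eq_same, Pi.single_eq_of_ne hij.symm] at h2
      simp at h2
    · refine Finset.insert_subset hX (Finset.insert_subset (hT' hmem1) ?_)
      intro W hW
      obtain ⟨j, -, rfl⟩ := Finset.mem_image.1 hW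
      exact hT' (hmem j)
    · rw [Finset.card_insert_of_notMem, Finset.card_insert_of_notMem,
        Finset.card_image_of_injective _ hinj, Finset.card_erase_of_mem
          (Finset.mem_erase.2 ⟨hij.symm, Finset.mem_univ j⟩)]
      · simp
      · intro hW
        obtain ⟨j, -, hj⟩ := Finset.mem_image.1 hW
        exact hone j hj.symm
      · intro hW
        rcases Finset.mem_insert.1 hW with hW | hW
        · exact hXT (hW ▸ hmem1)
        · obtain ⟨j, -, hj⟩ := Finset.mem_image.1 hW
          exact hXT (hj ▸ hmem j)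
    · intro W hW
      rcases Finset.mem_insert.1 hW with rfl | hW
      · rw [hx, pt, Submodule.span_singleton_le_iff_mem, LinearMap.mem_ker]
        change e.symm x i - e.symm x j = 0
        rw [hi, sub_self]
      · rcases Finset.mem_insert.1 hW with rfl | hW
        · rw [pt, Submodule.span_singleton_le_iff_mem, LinearMap.mem_ker]
          change e.symm (e 1) i - e.symm (e 1) j = 0
          rw [LinearEquiv.symm_apply_apply]
          simp
        · obtain ⟨l, hl, rfl⟩ := Finset.mem_image.1 hW
          rw [pt, Submodule.span_singleton_le_iff_mem, LinearMap.mem_ker]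
          change e.symm (e (Pi.single l 1)) i - e.symm (e (Pi.single l 1)) j = 0
          have h5 := Finset.mem_erase.1 hl
          have h6 := Finset.mem_erase.1 h5.2
          rw [LinearEquiv.symm_apply_apply, Pi.single_eq_of_ne h5.1.symm,
            Pi.single_eq_of_ne h6.1.symm, sub_self]
  let a : Fin (m + 2) → K := fun i => -(e.symm x i)⁻¹
  have ha : Function.Injective a := by
    intro i j hij
    by_contra hne
    exact hww i j hne (inv_injective (neg_injective hij))
  have hF : F a 0 = (∏ j, (e.symm x j)⁻¹) • e.symm x := by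
    funext i
    have h1 : (e.symm x i)⁻¹ * F a 0 i = ∏ j, (e.symm x j)⁻¹ := by
      have h3 := mul_F a 0 i
      have h4 : ∀ j, (0 : K) - a j = (e.symm x j)⁻¹ := fun j => by simp [a]
      simp only [h4] at h3
      exact h3
    have h2 := hw i
    rw [Pi.smul_apply, smul_eq_mul, ← h1, mul_comm (e.symm x i)⁻¹, mul_assoc,
      inv_mul_cancel₀ h2, mul_one]
  have hprod : (∏ j, (e.symm x j)⁻¹) ≠ 0 :=
    Finset.prod_ne_zero_iff.2 fun j _ => inv_ne_zero (hw j)
  have hXD : X ∈ act e (D 1 a) := by
    refine ⟨pt (e.symm x), Or.inl ⟨0, ?_⟩, ?_⟩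
    · rw [one_mul, hF, pt_smul hprod]
    · rw [map_pt, LinearEquiv.apply_symm_apply, hx]
  obtain ⟨g, hg⟩ := isNRC_D 1 a (fun _ => one_ne_zero) ha
  refine ⟨act e (D 1 a), ?_, ?_⟩
  · rw [hg, act_curve]
    exact ⟨_, rfl⟩
  · intro W hW
    rw [hS'] at hW
    rcases Finset.mem_insert.1 hW with rfl | hW
    · exact hXD
    · have h1 : W ∈ act e Fr := by
        rw [heq]
        exact hW
      refine Set.image_mono ?_ h1
      rintro W (rfl | ⟨i, rfl⟩)
      · exact Or.inr rfl
      · exact mem_D_single ha i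

lemma card_squares [Fintype K] [DecidableEq K] (h2 : Odd (Fintype.card K)) :
    (Fintype.card K + 1) / 2 ≤ ((Finset.univ : Finset K).image fun x => x * x).card := by
  have h1 := Finset.card_le_mul_card_image (f := fun x : K => x * x)
    ((Finset.univ : Finset K).erase 0) 2 ?_
  · rw [Finset.card_erase_of_mem (Finset.mem_univ _), Finset.card_univ] at h1
    have h3 : insert 0 (((Finset.univ : Finset K).erase 0).image fun x => x * x) ⊆
        (Finset.univ : Finset K).image fun x => x * x := by
      refine Finset.insert_subset (Finset.mem_image.2 ⟨0, Finset.mem_univ _, by simp⟩) ?_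
      exact Finset.image_subset_image (Finset.subset_univ _)
    have h4 := Finset.card_le_card h3
    rw [Finset.card_insert_of_notMem] at h4
    · obtain ⟨r, hr⟩ := h2
      omega
    · intro h
      obtain ⟨x, hx, hx2⟩ := Finset.mem_image.1 h
      exact (Finset.mem_erase.1 hx).1 (mul_self_eq_zero.1 hx2)
  · intro a ha
    obtain ⟨x, -, rfl⟩ := Finset.mem_image.1 ha
    refine (Finset.card_le_card (t := {x, -x}) ?_).trans Finset.card_le_two
    intro y hy
    have h3 := (Finset.mem_filter.1 hy).2
    rcases mul_self_eq_mul_self_iff.1 h3 with h | h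
    · simp [h]
    · simp [h]

end Pool.Agent.H569R3.NRC
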