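import Pool.Agent.H569R3.NRC.Thresh2

set_option autoImplicit false

open Polynomial

namespace Pool.Agent.H569R3.NRC

universe u

variable {K : Type u} [Field K] {m : ℕ}

lemma allOn_of_pos {n : ℕ} (h : ∀ S : Finset (Submodule K (Fin (m + 2) → K)), IsArc S →
    S.card = n → (through (S : Set (Submodule K (Fin (m + 2) → K)))).ncard ≠ 0) :
    AllOn K (m + 2) n := by
  intro S hS hc
  obtain ⟨C, hC⟩ := Set.nonempty_of_ncard_ne_zero (h S hS hc)
  exact ⟨C, hC.1, fun P hP => hC.2 (Finset.mem_coe.2 hP)⟩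

theorem threshold [Fintype K] (hq : m + 2 < Fintype.card K) (hm : 1 ≤ m) :
    ∃ N : ℕ, m + 5 ≤ N ∧ (Odd (Fintype.card K) → (Fintype.card K + 3) / 2 < N) ∧
      ∀ n, m + 2 ≤ n → (AllOn K (m + 2) n ↔ n ≤ m + 4 ∨ N ≤ n) := by
  classical
  haveI : Fintype (Submodule K (Fin (m + 2) → K)) := Fintype.ofFinite _
  have hex : ∃ n, m + 5 ≤ n ∧ AllOn K (m + 2) n := by
    refine ⟨Fintype.card (Submodule K (Fin (m + 2) → K)) + (m + 5), by omega, ?_⟩
    intro S _ hc
    have := Finset.card_le_univ S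
    omega
  obtain ⟨hN1, hN2⟩ := Nat.find_spec hex
  refine ⟨Nat.find hex, hN1, fun hodd => ?_, fun n hn => ⟨fun h => ?_, ?_⟩⟩
  · by_contra hcon
    have hcon' : Nat.find hex ≤ (Fintype.card K + 3) / 2 := not_lt.1 hcon
    generalize Nat.find hex = N at hN1 hN2 hcon'
    have hchar : ringChar K ≠ 2 := by
      intro h
      have h1 := (FiniteField.even_card_iff_char_two (F := K)).1 h
      obtain ⟨r, hr⟩ := hodd
      omega
    obtain ⟨ν, hν⟩ := FiniteField.exists_nonsquare hchar
    have hsq := card_squares (K := K) hodd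
    have hle : N - 1 ≤ ((Finset.univ : Finset K).image fun x => x * x).card := by
      obtain ⟨r, hr⟩ := hodd
      omega
    obtain ⟨T, hT, hTc⟩ := Finset.exists_subset_card_eq hle
    have hl : (-1 : K) ^ m * ν ≠ 0 := by
      refine mul_ne_zero (pow_ne_zero _ (neg_ne_zero.2 one_ne_zero)) fun h => hν ?_
      rw [h]
      exact ⟨0, by simp⟩
    have hTR : ∀ R ⊆ T, R.card = m + 1 → (-1 : K) ^ m * ν ≠ (-1) ^ m * ∏ t ∈ R, t := by
      intro R hR _ h
      have h1 : ν = ∏ t ∈ R, t :=
        mul_left_cancel₀ (pow_ne_zero _ (neg_ne_zero.2 one_ne_zero)) h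
      refine hν ?_
      rw [h1]
      refine Finset.isSquare_prod _ fun t ht => ?_
      obtain ⟨x, -, hx⟩ := Finset.mem_image.1 (hT (hR ht))
      exact ⟨x, hx.symm⟩
    exact xarc_not hq hm hl hTR (by omega)
      (hN2 _ (xarc_isArc hTR) (by rw [xarc_card hm hl]; omega))
  · by_cases h1 : n ≤ m + 4
    · exact Or.inl h1
    · exact Or.inr (Nat.find_min' hex ⟨by omega, h⟩)
  · rintro (h | h)
    · have h3 : n = m + 2 ∨ n = m + 3 ∨ n = m + 4 := by omega
      rcases h3 with rfl | rfl | rfl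
      · refine allOn_of_pos fun S hS hc => ?_
        rw [(main hq S hS).1 hc]
        refine mul_ne_zero (pow_ne_zero _ (by omega)) fun h0 => ?_
        have := Nat.descFactorial_eq_zero_iff_lt.1 h0
        omega
      · refine allOn_of_pos fun S hS hc => ?_
        rw [(main hq S hS).2.1 hc]
        intro h0
        have := Nat.descFactorial_eq_zero_iff_lt.1 h0
        omega
      · exact allOn_two hq
    · exact Nat.le_induction hN2 (fun j hj ih => upset hq (hN1.trans hj) ih) n h

end Pool.Agent.H569R3.NRC
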